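import Mathlib
import Pool.Agent.Helper923.PNT

/-!
# Sums over sets of primes with a natural density
-/

set_option autoImplicit false

open Filter Topology Finset

noncomputable section

namespace Pool.Agent.U360.TQ

/-- `1 / (k log k)` -/
def gk (k : ℕ) : ℝ := 1 / ((k + 2 : ℕ) * Real.log (k + 2 : ℕ))

theorem log_pos' (k : ℕ) : 0 < Real.log ((k + 2 : ℕ) : ℝ) := by
  apply Real.log_pos
  push_cast
  have : (0 : ℝ) ≤ k := Nat.cast_nonneg k
  linarith

theorem gk_pos (k : ℕ) : 0 < gk k := by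
  unfold gk
  have := log_pos' k
  positivity

/-- upper bound for one term -/
theorem gk_le (k : ℕ) : gk (k + 1) ≤ Real.log (Real.log (k + 3 : ℕ)) - Real.log (Real.log (k + 2 : ℕ)) := by
  have h1 := log_pos' k
  have h2 := log_pos' (k + 1)
  have h3 : Real.log (Real.log (k + 3 : ℕ)) - Real.log (Real.log (k + 2 : ℕ)) =
      - Real.log (Real.log (k + 2 : ℕ) / Real.log (k + 3 : ℕ)) := by
    rw [Real.log_div h1.ne' h2.ne']; ring
  have h4 : Real.log (Real.log (k + 2 : ℕ) / Real.log (k + 3 : ℕ)) ≤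
      Real.log (k + 2 : ℕ) / Real.log (k + 3 : ℕ) - 1 := Real.log_le_sub_one_of_pos (by
        exact div_pos h1 h2)
  have h5 : Real.log ((k + 2 : ℕ) : ℝ) - Real.log ((k + 3 : ℕ) : ℝ) ≤ - (1 / ((k + 3 : ℕ) : ℝ)) := by
    have h6 : (0 : ℝ) < (k + 2 : ℕ) := by positivity
    have h7 : (0 : ℝ) < (k + 3 : ℕ) := by positivity
    rw [← Real.log_div h6.ne' h7.ne']
    refine (Real.log_le_sub_one_of_pos (div_pos h6 h7)).trans (le_of_eq ?_)
    push_cast
    field_simp
    ring
  rw [h3]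
  have h8 : Real.log (k + 2 : ℕ) / Real.log (k + 3 : ℕ) - 1 =
      (Real.log (k + 2 : ℕ) - Real.log (k + 3 : ℕ)) / Real.log (k + 3 : ℕ) := by
    rw [sub_div, div_self h2.ne']
  have h9 : (Real.log (k + 2 : ℕ) - Real.log (k + 3 : ℕ)) / Real.log (k + 3 : ℕ) ≤
      - gk (k + 1) := by
    have : - gk (k + 1) = (- (1 / ((k + 3 : ℕ) : ℝ))) / Real.log (k + 3 : ℕ) := by
      unfold gk
      rw [show k + 1 + 2 = k + 3 from rfl, neg_div, div_div]
    rw [this]
    exact div_le_div_of_nonneg_right h5 h2.le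
  linarith

/-- lower bound for one term -/
theorem le_gk (k : ℕ) : Real.log (Real.log (k + 3 : ℕ)) - Real.log (Real.log (k + 2 : ℕ)) ≤ gk k := by
  have h1 := log_pos' k
  have h2 := log_pos' (k + 1)
  have h3 : Real.log (Real.log (k + 3 : ℕ)) - Real.log (Real.log (k + 2 : ℕ)) =
      Real.log (Real.log (k + 3 : ℕ) / Real.log (k + 2 : ℕ)) := by
    rw [Real.log_div h2.ne' h1.ne']
  have h4 : Real.log (Real.log (k + 3 : ℕ) / Real.log (k + 2 : ℕ)) ≤
      Real.log (k + 3 : ℕ) / Real.log (k + 2 : ℕ) - 1 := Real.log_le_sub_one_of_pos (by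
        exact div_pos h2 h1)
  have h5 : Real.log ((k + 3 : ℕ) : ℝ) - Real.log ((k + 2 : ℕ) : ℝ) ≤ (1 / ((k + 2 : ℕ) : ℝ)) := by
    have h6 : (0 : ℝ) < (k + 2 : ℕ) := by positivity
    have h7 : (0 : ℝ) < (k + 3 : ℕ) := by positivity
    rw [← Real.log_div h7.ne' h6.ne']
    refine (Real.log_le_sub_one_of_pos (div_pos h7 h6)).trans (le_of_eq ?_)
    push_cast
    field_simp
    ring
  rw [h3]
  refine h4.trans ?_
  have h8 : Real.log (k + 3 : ℕ) / Real.log (k + 2 : ℕ) - 1 =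
      (Real.log (k + 3 : ℕ) - Real.log (k + 2 : ℕ)) / Real.log (k + 2 : ℕ) := by
    rw [sub_div, div_self h1.ne']
  rw [h8]
  have : gk k = (1 / ((k + 2 : ℕ) : ℝ)) / Real.log (k + 2 : ℕ) := by
    unfold gk
    rw [div_div]
  rw [this]
  exact div_le_div_of_nonneg_right h5 h1.le

theorem sum_gk_ge (n : ℕ) : Real.log (Real.log (n + 2 : ℕ)) - Real.log (Real.log (2 : ℕ)) ≤
    ∑ k ∈ range n, gk k := by
  induction n with
  | zero => simp
  | succ n ih =>
    rw [sum_range_succ]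
    have := le_gk n
    rw [show n + 1 + 2 = n + 3 from rfl]
    linarith

theorem sum_gk_le (n : ℕ) : ∑ k ∈ range (n + 1), gk k ≤
    gk 0 + Real.log (Real.log (n + 2 : ℕ)) - Real.log (Real.log (2 : ℕ)) := by
  induction n with
  | zero => simp
  | succ n ih =>
    rw [sum_range_succ]
    have := gk_le n
    rw [show n + 1 + 2 = n + 3 from rfl]
    linarith

theorem tendsto_loglog : Tendsto (fun n : ℕ => Real.log (Real.log n)) atTop atTop :=
  Real.tendsto_log_atTop.comp (Real.tendsto_log_atTop.comp tendsto_natCast_atTop_atTop)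

theorem loglog_mono {m n : ℕ} (hm : 2 ≤ m) (h : m ≤ n) :
    Real.log (Real.log m) ≤ Real.log (Real.log n) := by
  have h1 : (2 : ℝ) ≤ m := by exact_mod_cast hm
  have h2 : (m : ℝ) ≤ n := by exact_mod_cast h
  exact Real.log_le_log (Real.log_pos (by linarith)) (Real.log_le_log (by linarith) h2)

/-- `∑_{k ≤ n} 1 / (k log k) ~ log log n` -/
theorem sum_gk_tendsto : Tendsto (fun n : ℕ => (∑ k ∈ range (n - 1), gk k) / Real.log (Real.log n)) atTop
    (𝓝 1) := by
  have h1 : Tendsto (fun n : ℕ => Real.log (Real.log (2 : ℕ)) / Real.log (Real.log n)) atTop (𝓝 0) :=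
    tendsto_const_nhds.div_atTop tendsto_loglog
  have h2 : Tendsto (fun n : ℕ => gk 0 / Real.log (Real.log n)) atTop (𝓝 0) :=
    tendsto_const_nhds.div_atTop tendsto_loglog
  have hl : Tendsto (fun n : ℕ => 1 - Real.log (Real.log (2 : ℕ)) / Real.log (Real.log n)) atTop
      (𝓝 1) := by simpa using tendsto_const_nhds.sub h1
  have hu : Tendsto (fun n : ℕ => 1 + gk 0 / Real.log (Real.log n) -
      Real.log (Real.log (2 : ℕ)) / Real.log (Real.log n)) atTop (𝓝 1) := by
    simpa using (tendsto_const_nhds.add h2).sub h1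
  have hev : ∀ᶠ n : ℕ in atTop, 0 < Real.log (Real.log n) := tendsto_loglog.eventually_gt_atTop 0
  refine tendsto_of_tendsto_of_tendsto_of_le_of_le' hl hu ?_ ?_
  · filter_upwards [hev, eventually_ge_atTop 3] with n h0 hn
    obtain ⟨m, rfl⟩ : ∃ m, n = m + 3 := ⟨n - 3, by omega⟩
    have h3 := sum_gk_ge (m + 2)
    have h4 := loglog_mono (m := m + 3) (n := m + 2 + 2) (by omega) (by omega)
    rw [show m + 3 - 1 = m + 2 by omega, le_div_iff₀ h0, sub_mul, one_mul, div_mul_cancel₀ _ h0.ne']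
    linarith
  · filter_upwards [hev, eventually_ge_atTop 3] with n h0 hn
    obtain ⟨m, rfl⟩ : ∃ m, n = m + 3 := ⟨n - 3, by omega⟩
    have h3 := sum_gk_le (m + 1)
    rw [show m + 3 - 1 = m + 1 + 1 by omega, div_le_iff₀ h0, sub_mul, add_mul, one_mul,
      div_mul_cancel₀ _ h0.ne', div_mul_cancel₀ _ h0.ne']
    rw [show m + 1 + 2 = m + 3 by omega] at h3
    linarith

/-- **Partial summation.** If `c n log n / n → δ`, then `∑_{k < n} c (k) / (k (k + 1)) ~ δ log log n`. -/
theorem partial_sum (c : ℕ → ℝ) (δ : ℝ)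
    (h : Tendsto (fun n : ℕ => c n * Real.log n / n) atTop (𝓝 δ)) :
    Tendsto (fun n : ℕ => (∑ k ∈ range n, c k / (k * (k + 1))) / Real.log (Real.log n)) atTop
      (𝓝 δ) := by
  have hne : ∀ᶠ n : ℕ in atTop, Real.log (Real.log n) ≠ 0 :=
    (tendsto_loglog.eventually_gt_atTop 0).mono fun n hn => hn.ne'
  -- shift
  have e1 : ∀ n : ℕ, 2 ≤ n → ∑ k ∈ range n, c k / (k * (k + 1)) =
      ∑ k ∈ range (n - 2), c (k + 2) / ((k + 2 : ℕ) * ((k + 2 : ℕ) + 1)) + ∑ k ∈ range 2,
        c k / (k * (k + 1)) := by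
    intro n hn
    obtain ⟨m, rfl⟩ : ∃ m, n = m + 2 := ⟨n - 2, by omega⟩
    rw [show m + 2 - 2 = m by omega, show m + 2 = 2 + m by omega, sum_range_add]
    rw [add_comm]
    congr 1
    refine sum_congr rfl fun k _ => ?_
    rw [show 2 + k = k + 2 by omega]
  have h1 : Tendsto (fun k : ℕ => c (k + 2) / ((k + 2 : ℕ) * ((k + 2 : ℕ) + 1)) / gk k) atTop
      (𝓝 δ) := by
    have h2 := h.comp (tendsto_add_atTop_nat 2)
    have h3 : Tendsto (fun k : ℕ => ((k + 2 : ℕ) : ℝ) / (((k + 2 : ℕ) : ℝ) + 1)) atTop (𝓝 1) := by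
      have h4 : Tendsto (fun k : ℕ => (k : ℝ) / ((k : ℝ) + 1)) atTop (𝓝 1) :=
        tendsto_natCast_div_add_atTop 1
      exact h4.comp (tendsto_add_atTop_nat 2)
    have h5 := h2.mul h3
    rw [mul_one] at h5
    refine h5.congr fun k => ?_
    have h6 := log_pos' k
    have h7 : (0 : ℝ) < (k + 2 : ℕ) := by positivity
    simp only [Function.comp_apply]
    unfold gk
    field_simp
  have h2 : (fun k : ℕ => c (k + 2) / ((k + 2 : ℕ) * ((k + 2 : ℕ) + 1)) - δ * gk k) =o[atTop] gk := by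
    rw [Asymptotics.isLittleO_iff_tendsto (fun k hk => absurd hk (gk_pos k).ne')]
    have h3 := h1.sub_const δ
    rw [sub_self] at h3
    refine h3.congr fun k => ?_
    rw [sub_div, mul_div_assoc, div_self (gk_pos k).ne', mul_one]
  have hinf : Tendsto (fun n => ∑ k ∈ range n, gk k) atTop atTop := by
    refine tendsto_atTop_mono sum_gk_ge ?_
    exact tendsto_atTop_add_const_right _ _ (tendsto_loglog.comp (tendsto_add_atTop_nat 2))
  have h3 := h2.sum_range (fun k => (gk_pos k).le) hinf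
  have h4 : Tendsto (fun n => (∑ k ∈ range n, (c (k + 2) / ((k + 2 : ℕ) * ((k + 2 : ℕ) + 1)) -
      δ * gk k)) / ∑ k ∈ range n, gk k) atTop (𝓝 0) := h3.tendsto_div_nhds_zero
  have hs : Tendsto (fun n : ℕ => (∑ k ∈ range (n - 2), gk k) / Real.log (Real.log n)) atTop
      (𝓝 1) := by
    have h5 : Tendsto (fun n : ℕ => gk (n - 2) / Real.log (Real.log n)) atTop (𝓝 0) := by
      have h6 : ∀ᶠ n : ℕ in atTop, ‖gk (n - 2) / Real.log (Real.log n)‖ ≤
          gk 0 / Real.log (Real.log n) := by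
        filter_upwards [tendsto_loglog.eventually_gt_atTop 0] with n hn
        rw [Real.norm_eq_abs, abs_of_nonneg (div_nonneg (gk_pos _).le hn.le)]
        refine div_le_div_of_nonneg_right ?_ hn.le
        unfold gk
        have h7 := log_pos' 0
        have h8 : Real.log ((0 + 2 : ℕ) : ℝ) ≤ Real.log ((n - 2 + 2 : ℕ) : ℝ) := by
          apply Real.log_le_log (by norm_num)
          exact_mod_cast (by omega : 0 + 2 ≤ n - 2 + 2)
        have h9 : ((0 + 2 : ℕ) : ℝ) ≤ ((n - 2 + 2 : ℕ) : ℝ) := by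
          exact_mod_cast (by omega : 0 + 2 ≤ n - 2 + 2)
        apply one_div_le_one_div_of_le (by positivity)
        exact mul_le_mul h9 h8 h7.le (by positivity)
      exact squeeze_zero_norm' h6 (tendsto_const_nhds.div_atTop tendsto_loglog)
    have h6 := sum_gk_tendsto.sub h5
    rw [sub_zero] at h6
    refine h6.congr' ?_
    filter_upwards [eventually_ge_atTop 2] with n hn
    obtain ⟨m, rfl⟩ : ∃ m, n = m + 2 := ⟨n - 2, by omega⟩
    rw [show m + 2 - 1 = m + 1 by omega, show m + 2 - 2 = m by omega, sum_range_succ, ← sub_div,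
      add_sub_cancel_right]
  have h7 : Tendsto (fun n : ℕ => (∑ k ∈ range (n - 2), (c (k + 2) / ((k + 2 : ℕ) *
      ((k + 2 : ℕ) + 1)) - δ * gk k)) / Real.log (Real.log n)) atTop (𝓝 0) := by
    have h8 := (h4.comp (tendsto_sub_atTop_nat 2)).mul hs
    rw [zero_mul] at h8
    refine h8.congr' ?_
    have h9 : ∀ᶠ n : ℕ in atTop, 0 < ∑ k ∈ range (n - 2), gk k :=
      (hinf.comp (tendsto_sub_atTop_nat 2)).eventually_gt_atTop 0
    filter_upwards [h9] with n hn
    simp only [Function.comp_apply]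
    rw [div_mul_div_comm, mul_comm (∑ k ∈ range (n - 2), gk k), mul_div_mul_right _ _ hn.ne']
  have h8 := (h7.add (hs.const_mul δ)).add
    (tendsto_const_nhds.div_atTop tendsto_loglog : Tendsto (fun n : ℕ =>
      (∑ k ∈ range 2, c k / (k * (k + 1))) / Real.log (Real.log n)) atTop (𝓝 0))
  rw [mul_one, zero_add, add_zero] at h8
  refine h8.congr' ?_
  filter_upwards [eventually_ge_atTop 2] with n hn
  rw [e1 n hn, sum_sub_distrib, ← mul_sum]
  ring

end Pool.Agent.U360.TQ
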