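import Pool.Agent.U360.TQ.An1

/-!
# Finite sets of primes: the upper bound
-/

set_option autoImplicit false

open Filter Topology Finset

noncomputable section

open scoped Classical

namespace Pool.Agent.U360.TQ

/-- a set of primes with norms -/
structure PS (ι : Type) where
  /-- the norm -/
  N : ι → ℕ
  two : ∀ i, 2 ≤ N i
  fin : ∀ X : ℕ, {i | N i ≤ X}.Finite

namespace PS

variable {ι : Type} (A : PS ι)

/-- the primes of norm at most `X` -/
def V (X : ℕ) : Finset ι := (A.fin X).toFinset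

theorem mem_V {X : ℕ} {i : ι} : i ∈ A.V X ↔ A.N i ≤ X := by simp [V]

/-- the norm of a finite set -/
def nm (T : Finset ι) : ℕ := ∏ i ∈ T, A.N i

theorem nm_pos (T : Finset ι) : 0 < A.nm T :=
  Finset.prod_pos fun i _ => by have := A.two i; omega

theorem le_nm {T : Finset ι} {i : ι} (h : i ∈ T) : A.N i ≤ A.nm T :=
  Nat.le_of_dvd (A.nm_pos T) (Finset.dvd_prod_of_mem _ h)

/-- the finite sets of norm at most `X` -/
def TT (X : ℕ) : Finset (Finset ι) := (A.V X).powerset.filter fun T => A.nm T ≤ X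

theorem mem_TT {X : ℕ} {T : Finset ι} : T ∈ A.TT X ↔ A.nm T ≤ X := by
  unfold TT
  rw [mem_filter, mem_powerset]
  exact ⟨fun h => h.2, fun h => ⟨fun i hi => A.mem_V.2 ((A.le_nm hi).trans h), h⟩⟩

/-- the number of the primes with the property `P` of norm at most `X` -/
def cnt (P : ι → Prop) (X : ℕ) : ℕ := ((A.V X).filter P).card

/-- the density -/
def HasDens (P : ι → Prop) (δ : ℝ) : Prop :=
  Tendsto (fun X : ℕ => (A.cnt P X : ℝ) * Real.log X / X) atTop (𝓝 δ)

/-- the sum of the inverse norms -/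
def S (P : ι → Prop) (X : ℕ) : ℝ := ∑ i ∈ (A.V X).filter P, 1 / (A.N i : ℝ)

theorem N_pos (i : ι) : (0 : ℝ) < A.N i := by
  have := A.two i
  exact_mod_cast (by omega : 0 < A.N i)

theorem log_N_pos (i : ι) : 0 < Real.log (A.N i) := by
  have := A.two i
  exact Real.log_pos (by exact_mod_cast (by omega : 1 < A.N i))

theorem tel (n X : ℕ) (hn : 1 ≤ n) (h : n ≤ X) :
    ∑ k ∈ Ico n X, (1 : ℝ) / (k * (k + 1)) = 1 / n - 1 / X := by
  induction X, h using Nat.le_induction with
  | base => simp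
  | succ X h ih =>
    rw [Finset.sum_Ico_succ_top h, ih]
    have h1 : (0 : ℝ) < X := by exact_mod_cast (by omega : 0 < X)
    push_cast
    field_simp
    ring

theorem S_eq (P : ι → Prop) (X : ℕ) : A.S P X =
    ∑ k ∈ range X, (A.cnt P k : ℝ) / (k * (k + 1)) + (A.cnt P X : ℝ) / X := by
  unfold S
  have h1 : ∀ i ∈ (A.V X).filter P, 1 / (A.N i : ℝ) =
      ∑ k ∈ range X, (if A.N i ≤ k then (1 : ℝ) / (k * (k + 1)) else 0) + 1 / X := by
    intro i hi
    rw [mem_filter, mem_V] at hi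
    have h2 := A.two i
    have h3 := tel (A.N i) X (by omega) hi.1
    rw [← sum_filter]
    have h4 : (range X).filter (fun k => A.N i ≤ k) = Ico (A.N i) X := by
      ext k
      simp only [mem_filter, mem_range, mem_Ico]
      exact ⟨fun h => ⟨h.2, h.1⟩, fun h => ⟨h.2, h.1⟩⟩
    rw [h4, h3]
    ring
  rw [sum_congr rfl h1, sum_add_distrib, sum_comm, sum_const, nsmul_eq_mul]
  congr 1
  · refine sum_congr rfl fun k hk => ?_
    rw [← sum_filter, sum_const, nsmul_eq_mul, mul_one_div]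
    congr 2
    unfold cnt
    congr 1
    ext i
    rw [mem_range] at hk
    simp only [mem_filter, mem_V]
    constructor
    · rintro ⟨⟨h1, h2⟩, h3⟩
      exact ⟨h3, h2⟩
    · rintro ⟨h1, h2⟩
      exact ⟨⟨by omega, h2⟩, h1⟩
  · unfold cnt
    ring

theorem inv_log_tendsto : Tendsto (fun X : ℕ => (1 : ℝ) / Real.log X) atTop (𝓝 0) :=
  tendsto_const_nhds.div_atTop (Real.tendsto_log_atTop.comp tendsto_natCast_atTop_atTop)

variable {A}

theorem HasDens.div_tendsto {P : ι → Prop} {δ : ℝ} (h : A.HasDens P δ) :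
    Tendsto (fun X : ℕ => (A.cnt P X : ℝ) / X) atTop (𝓝 0) := by
  have h1 := h.mul inv_log_tendsto
  rw [mul_zero] at h1
  refine h1.congr' ?_
  filter_upwards [eventually_ge_atTop 2] with X hX
  have h2 : 0 < Real.log X := Real.log_pos (by exact_mod_cast (by omega : 1 < X))
  field_simp

theorem HasDens.S_tendsto {P : ι → Prop} {δ : ℝ} (h : A.HasDens P δ) :
    Tendsto (fun X : ℕ => A.S P X / Real.log (Real.log X)) atTop (𝓝 δ) := by
  have h1 := partial_sum (fun n => (A.cnt P n : ℝ)) δ h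
  have h2 : Tendsto (fun X : ℕ => ((A.cnt P X : ℝ) / X) / Real.log (Real.log X)) atTop (𝓝 0) :=
    h.div_tendsto.div_atTop tendsto_loglog
  have h3 := h1.add h2
  rw [add_zero] at h3
  refine h3.congr fun X => ?_
  rw [A.S_eq]
  ring

theorem HasDens.upper {P : ι → Prop} {δ : ℝ} (h : A.HasDens P δ) {ε : ℝ} (hε : 0 < ε) :
    ∀ᶠ X : ℕ in atTop, A.S P X ≤ (δ + ε) * Real.log (Real.log X) := by
  have h1 := h.S_tendsto.eventually (gt_mem_nhds (show δ < δ + ε by linarith))
  filter_upwards [h1, tendsto_loglog.eventually_gt_atTop 0] with X hX h0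
  rw [div_lt_iff₀ h0] at hX
  exact hX.le

theorem HasDens.lower {P : ι → Prop} {δ : ℝ} (h : A.HasDens P δ) {ε : ℝ} (hε : 0 < ε) :
    ∀ᶠ X : ℕ in atTop, (δ - ε) * Real.log (Real.log X) ≤ A.S P X := by
  have h1 := h.S_tendsto.eventually (lt_mem_nhds (show δ - ε < δ by linarith))
  filter_upwards [h1, tendsto_loglog.eventually_gt_atTop 0] with X hX h0
  rw [lt_div_iff₀ h0] at hX
  exact hX.le

/-- Chebyshev's upper bound -/
theorem HasDens.cheb {δ : ℝ} (h : A.HasDens (fun _ => True) δ) :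
    ∃ C : ℝ, 0 < C ∧ ∀ X : ℕ, (∑ i ∈ A.V X, Real.log (A.N i)) ≤ C * X := by
  obtain ⟨C, hC⟩ := h.bddAbove_range
  refine ⟨max C 1, lt_max_of_lt_right one_pos, fun X => ?_⟩
  rcases Nat.eq_zero_or_pos X with rfl | hX
  · have h1 : A.V 0 = ∅ := by
      rw [Finset.eq_empty_iff_forall_notMem]
      intro i hi
      rw [mem_V] at hi
      have := A.two i
      omega
    rw [h1]
    simp
  · have h1 : (∑ i ∈ A.V X, Real.log (A.N i)) ≤ ∑ i ∈ A.V X, Real.log X := by
      refine sum_le_sum fun i hi => ?_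
      rw [mem_V] at hi
      exact Real.log_le_log (A.N_pos i) (by exact_mod_cast hi)
    rw [sum_const, nsmul_eq_mul] at h1
    have h2 : (A.cnt (fun _ => True) X : ℝ) * Real.log X / X ≤ C := hC ⟨X, rfl⟩
    have h3 : A.cnt (fun _ => True) X = (A.V X).card := by
      unfold cnt
      simp
    have hX0 : (0 : ℝ) < X := by exact_mod_cast hX
    rw [h3, div_le_iff₀ hX0] at h2
    refine h1.trans (h2.trans ?_)
    exact mul_le_mul_of_nonneg_right (le_max_left _ _) hX0.le

variable (A)

/-- the product of the values of `g` -/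
def pr (g : ι → ℝ) (T : Finset ι) : ℝ := ∏ i ∈ T, g i

theorem log_nm (T : Finset ι) : Real.log (A.nm T) = ∑ i ∈ T, Real.log (A.N i) := by
  unfold nm
  push_cast
  rw [Real.log_prod]
  exact fun i _ => (A.N_pos i).ne'

theorem nm_insert {T : Finset ι} {i : ι} (h : i ∉ T) : A.nm (insert i T) = A.N i * A.nm T :=
  Finset.prod_insert h

theorem nm_erase {T : Finset ι} {i : ι} (h : i ∈ T) : A.nm T = A.N i * A.nm (T.erase i) := by
  conv_lhs => rw [← Finset.insert_erase h]
  exact A.nm_insert (Finset.notMem_erase i T)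

/-- the Halberstam-Richert inequality, first part -/
theorem hr1 (g : ι → ℝ) (h0 : ∀ i, 0 ≤ g i) (h1 : ∀ i, g i ≤ 1) (C : ℝ)
    (hC : ∀ X : ℕ, (∑ i ∈ A.V X, Real.log (A.N i)) ≤ C * X) (hC0 : 0 < C) (X : ℕ) :
    ∑ T ∈ A.TT X, pr g T * Real.log (A.nm T) ≤ C * X * ∑ T ∈ A.TT X, pr g T / A.nm T := by
  have hpr : ∀ T, 0 ≤ pr g T := fun T => prod_nonneg fun i _ => h0 i
  have e1 : ∑ T ∈ A.TT X, pr g T * Real.log (A.nm T) =
      ∑ x ∈ (A.TT X).sigma fun T => T, pr g x.1 * Real.log (A.N x.2) := by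
    rw [sum_sigma]
    refine sum_congr rfl fun T _ => ?_
    rw [A.log_nm, mul_sum]
  have e2 : ∑ x ∈ (A.TT X).sigma (fun T => T), pr g x.1 * Real.log (A.N x.2) ≤
      ∑ y ∈ (A.TT X).sigma (fun T => A.V (X / A.nm T)), pr g y.1 * Real.log (A.N y.2) := by
    let e : (Σ _ : Finset ι, ι) → (Σ _ : Finset ι, ι) := fun x => ⟨x.1.erase x.2, x.2⟩
    have hinj : Set.InjOn e ((A.TT X).sigma fun T => T : Finset _) := by
      rintro ⟨T, i⟩ hx ⟨T', i'⟩ hx' hee
      rw [mem_coe, mem_sigma] at hx hx'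
      simp only [e, Sigma.mk.injEq, heq_eq_eq] at hee
      obtain ⟨h2, rfl⟩ := hee
      have h3 : T = T' := by
        have h4 : insert i (T.erase i) = T := Finset.insert_erase hx.2
        have h5 : insert i (T'.erase i) = T' := Finset.insert_erase hx'.2
        rw [← h4, h2, h5]
      rw [h3]
    calc ∑ x ∈ (A.TT X).sigma (fun T => T), pr g x.1 * Real.log (A.N x.2)
        ≤ ∑ x ∈ (A.TT X).sigma (fun T => T), pr g (e x).1 * Real.log (A.N (e x).2) := by
          refine sum_le_sum fun x hx => ?_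
          rw [mem_sigma] at hx
          refine mul_le_mul_of_nonneg_right ?_ (A.log_N_pos _).le
          have h2 : pr g x.1 = g x.2 * pr g (x.1.erase x.2) := by
            unfold pr
            exact (Finset.mul_prod_erase x.1 g hx.2).symm
          rw [h2]
          exact mul_le_of_le_one_left (hpr _) (h1 _)
      _ = ∑ y ∈ ((A.TT X).sigma (fun T => T)).image e, pr g y.1 * Real.log (A.N y.2) :=
          (sum_image (f := fun y : (Σ _ : Finset ι, ι) => pr g y.1 * Real.log (A.N y.2))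
            hinj).symm
      _ ≤ _ := by
          refine sum_le_sum_of_subset_of_nonneg ?_ fun y _ _ =>
            mul_nonneg (hpr _) (A.log_N_pos _).le
          intro y hy
          rw [mem_image] at hy
          obtain ⟨x, hx, rfl⟩ := hy
          rw [mem_sigma, mem_TT] at hx
          have h2 := A.nm_erase hx.2
          have h3 := A.nm_pos (x.1.erase x.2)
          have h4 := A.two x.2
          rw [mem_sigma, mem_TT, mem_V]
          refine ⟨?_, ?_⟩
          · change A.nm (x.1.erase x.2) ≤ X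
            have : A.nm (x.1.erase x.2) ≤ A.nm x.1 := by
              rw [h2]
              exact Nat.le_mul_of_pos_left _ (by omega)
            exact this.trans hx.1
          · change A.N x.2 ≤ X / A.nm (x.1.erase x.2)
            rw [Nat.le_div_iff_mul_le h3, ← h2]
            exact hx.1
  rw [e1]
  refine e2.trans ?_
  rw [sum_sigma, mul_sum]
  refine sum_le_sum fun T _ => ?_
  change ∑ s ∈ A.V (X / A.nm T), pr g T * Real.log (A.N s) ≤ _
  rw [← mul_sum]
  have h2 := hC (X / A.nm T)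
  have h3 : ((X / A.nm T : ℕ) : ℝ) ≤ (X : ℝ) / A.nm T := Nat.cast_div_le
  have h4 : (0 : ℝ) < A.nm T := by exact_mod_cast A.nm_pos T
  calc pr g T * ∑ i ∈ A.V (X / A.nm T), Real.log (A.N i) ≤ pr g T * (C * ((X : ℝ) / A.nm T)) :=
        mul_le_mul_of_nonneg_left (h2.trans (mul_le_mul_of_nonneg_left h3 hC0.le)) (hpr T)
    _ = C * X * (pr g T / A.nm T) := by ring

/-- the Halberstam-Richert inequality -/
theorem hr (g : ι → ℝ) (h0 : ∀ i, 0 ≤ g i) (h1 : ∀ i, g i ≤ 1) (C : ℝ)
    (hC : ∀ X : ℕ, (∑ i ∈ A.V X, Real.log (A.N i)) ≤ C * X) (hC0 : 0 < C) (X : ℕ) (hX : 1 ≤ X) :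
    Real.log X * ∑ T ∈ A.TT X, pr g T ≤
      (C + 1) * X * Real.exp (∑ i ∈ A.V X, g i / A.N i) := by
  have hpr : ∀ T, 0 ≤ pr g T := fun T => prod_nonneg fun i _ => h0 i
  have hX0 : (0 : ℝ) < X := by exact_mod_cast hX
  have e1 : Real.log X * ∑ T ∈ A.TT X, pr g T ≤ (C + 1) * X * ∑ T ∈ A.TT X, pr g T / A.nm T := by
    have h2 : ∀ T ∈ A.TT X, Real.log X * pr g T ≤
        pr g T * Real.log (A.nm T) + X * (pr g T / A.nm T) := by
      intro T _
      have h4 : (0 : ℝ) < A.nm T := by exact_mod_cast A.nm_pos T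
      have h5 : Real.log X - Real.log (A.nm T) ≤ X / A.nm T := by
        rw [← Real.log_div hX0.ne' h4.ne']
        have := Real.log_le_sub_one_of_pos (div_pos hX0 h4)
        linarith
      have h6 := mul_le_mul_of_nonneg_left h5 (hpr T)
      have h7 : pr g T * (X / A.nm T) = X * (pr g T / A.nm T) := by ring
      linarith
    rw [mul_sum]
    refine (sum_le_sum h2).trans ?_
    rw [sum_add_distrib, ← mul_sum]
    have := A.hr1 g h0 h1 C hC hC0 X
    linarith
  refine e1.trans (mul_le_mul_of_nonneg_left ?_ (by positivity))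
  have e2 : ∑ T ∈ A.TT X, pr g T / A.nm T ≤ ∑ T ∈ (A.V X).powerset, pr g T / A.nm T := by
    refine sum_le_sum_of_subset_of_nonneg (filter_subset _ _) fun T _ _ =>
      div_nonneg (hpr T) (Nat.cast_nonneg _)
  have e3 : ∑ T ∈ (A.V X).powerset, pr g T / A.nm T = ∏ i ∈ A.V X, (1 + g i / A.N i) := by
    rw [Finset.prod_one_add]
    refine sum_congr rfl fun T _ => ?_
    unfold pr nm
    rw [Finset.prod_div_distrib]
    push_cast
    rfl
  have e4 : ∏ i ∈ A.V X, (1 + g i / A.N i) ≤ Real.exp (∑ i ∈ A.V X, g i / A.N i) := by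
    rw [Real.exp_sum]
    refine prod_le_prod (fun i _ => ?_) fun i _ => ?_
    · have := div_nonneg (h0 i) (A.N_pos i).le
      linarith
    · rw [add_comm]
      exact Real.add_one_le_exp _
  linarith

/-- **Upper bound.** The number of the finite sets with at most `m` elements in the set `P` of density
`δ` is at most `X (log X)^(-δ+ε)`. -/
theorem upper (hA : A.HasDens (fun _ => True) 1) {P : ι → Prop} {δ : ℝ} (hP : A.HasDens P δ)
    (m : ℕ) {ε : ℝ} (hε : 0 < ε) :
    ∀ᶠ X : ℕ in atTop, (((A.TT X).filter fun T => (T.filter P).card ≤ m).card : ℝ) ≤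
      X * (Real.log X) ^ (-δ + ε) := by
  obtain ⟨C, hC0, hC⟩ := hA.cheb
  -- `δ ≥ 0`
  have hδ : 0 ≤ δ := by
    refine ge_of_tendsto hP ?_
    filter_upwards [eventually_ge_atTop 1] with X hX
    have : 0 ≤ Real.log X := Real.log_natCast_nonneg X
    positivity
  have hδ1 : 0 < δ + 1 := by linarith
  -- the parameters
  set η := min (ε / 8) 1 with hη
  have hη0 : 0 < η := lt_min (by linarith) one_pos
  have hη1 : η ≤ 1 := min_le_right _ _
  have hη2 : η ≤ ε / 8 := min_le_left _ _
  set z := min (ε / (8 * (δ + 1))) 1 with hz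
  have hz0 : 0 < z := lt_min (by positivity) one_pos
  have hz1 : z ≤ 1 := min_le_right _ _
  have hz2 : z * δ ≤ ε / 8 := by
    have h1 : z ≤ ε / (8 * (δ + 1)) := min_le_left _ _
    calc z * δ ≤ ε / (8 * (δ + 1)) * (δ + 1) := by
          apply mul_le_mul h1 (by linarith) hδ (by positivity)
      _ = ε / 8 := by field_simp
  let g : ι → ℝ := fun i => if P i then z else 1
  have hg0 : ∀ i, 0 ≤ g i := fun i => by
    simp only [g]; split_ifs <;> linarith
  have hg1 : ∀ i, g i ≤ 1 := fun i => by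
    simp only [g]; split_ifs <;> linarith
  have hpr : ∀ T, 0 ≤ pr g T := fun T => prod_nonneg fun i _ => hg0 i
  have hprz : ∀ T : Finset ι, (T.filter P).card ≤ m → z ^ m ≤ pr g T := by
    intro T hT
    have h1 : pr g T = z ^ (T.filter P).card := by
      unfold pr
      simp only [g]
      rw [Finset.prod_ite, prod_const, prod_const_one, mul_one]
    rw [h1]
    exact pow_le_pow_of_le_one hz0.le hz1 hT
  have hsum : ∀ X : ℕ, ∑ i ∈ A.V X, g i / A.N i = A.S (fun _ => True) X - (1 - z) * A.S P X := by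
    intro X
    have hS : A.S (fun _ => True) X = ∑ i ∈ A.V X, 1 / (A.N i : ℝ) := by
      unfold S
      simp
    rw [hS]
    unfold S
    rw [mul_sum, sum_filter, ← sum_sub_distrib]
    refine sum_congr rfl fun i _ => ?_
    simp only [g]
    split_ifs <;> ring
  have hlog : Tendsto (fun X : ℕ => Real.log X) atTop atTop :=
    Real.tendsto_log_atTop.comp tendsto_natCast_atTop_atTop
  have hbig : ∀ᶠ X : ℕ in atTop, (C + 1) / z ^ m ≤ (Real.log X) ^ (ε / 8) :=
    ((tendsto_rpow_atTop (by positivity : 0 < ε / 8)).comp hlog).eventually_ge_atTop _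
  filter_upwards [hA.upper hη0, hP.lower hη0, hbig, eventually_ge_atTop 3,
    tendsto_loglog.eventually_gt_atTop 0] with X hX1 hX2 hX3 hX4 hX5
  have hX0 : (0 : ℝ) < X := by exact_mod_cast (by omega : 0 < X)
  have hL : 0 < Real.log X := Real.log_pos (by exact_mod_cast (by omega : 1 < X))
  set ℓ := Real.log (Real.log X) with hℓ
  have h1 := A.hr g hg0 hg1 C hC hC0 X (by omega)
  have h2 : z ^ m * (((A.TT X).filter fun T => (T.filter P).card ≤ m).card : ℝ) ≤
      ∑ T ∈ A.TT X, pr g T := by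
    calc z ^ m * (((A.TT X).filter fun T => (T.filter P).card ≤ m).card : ℝ) =
          ∑ T ∈ (A.TT X).filter (fun T => (T.filter P).card ≤ m), z ^ m := by
          rw [sum_const, nsmul_eq_mul, mul_comm]
      _ ≤ ∑ T ∈ (A.TT X).filter (fun T => (T.filter P).card ≤ m), pr g T :=
          sum_le_sum fun T hT => hprz T (mem_filter.1 hT).2
      _ ≤ _ := sum_le_sum_of_subset_of_nonneg (filter_subset _ _) fun T _ _ => hpr T
  have h3 : ∑ i ∈ A.V X, g i / A.N i ≤ (1 - δ + ε / 2) * ℓ := by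
    rw [hsum X]
    have h4 : (1 - z) * ((δ - η) * ℓ) ≤ (1 - z) * A.S P X :=
      mul_le_mul_of_nonneg_left hX2 (by linarith)
    have h5 : (1 + η) * ℓ - (1 - z) * ((δ - η) * ℓ) ≤ (1 - δ + ε / 2) * ℓ := by
      have h6 : (1 + η) - (1 - z) * (δ - η) ≤ 1 - δ + ε / 2 := by nlinarith
      have := mul_le_mul_of_nonneg_right h6 hX5.le
      linarith
    linarith
  have h4 : Real.exp (∑ i ∈ A.V X, g i / A.N i) ≤ (Real.log X) ^ (1 - δ + ε / 2) := by
    rw [Real.rpow_def_of_pos hL]
    apply Real.exp_le_exp.2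
    linarith
  have h5 : Real.log X * (z ^ m * (((A.TT X).filter fun T => (T.filter P).card ≤ m).card : ℝ)) ≤
      (C + 1) * X * (Real.log X) ^ (1 - δ + ε / 2) := by
    refine (mul_le_mul_of_nonneg_left h2 hL.le).trans (h1.trans ?_)
    exact mul_le_mul_of_nonneg_left h4 (by positivity)
  have hzm : 0 < z ^ m := pow_pos hz0 m
  have h6 : (((A.TT X).filter fun T => (T.filter P).card ≤ m).card : ℝ) ≤
      ((C + 1) / z ^ m) * X * (Real.log X) ^ (-δ + ε / 2) := by
    have h7 : (Real.log X) ^ (1 - δ + ε / 2) = Real.log X * (Real.log X) ^ (-δ + ε / 2) := by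
      rw [show 1 - δ + ε / 2 = 1 + (-δ + ε / 2) by ring, Real.rpow_add hL, Real.rpow_one]
    rw [h7] at h5
    have h8 : Real.log X * z ^ m * (((A.TT X).filter fun T => (T.filter P).card ≤ m).card : ℝ) ≤
        Real.log X * z ^ m * (((C + 1) / z ^ m) * X * (Real.log X) ^ (-δ + ε / 2)) := by
      calc _ = Real.log X * (z ^ m * (((A.TT X).filter fun T => (T.filter P).card ≤ m).card : ℝ)) := by
            ring
        _ ≤ _ := h5
        _ = _ := by field_simp
    exact le_of_mul_le_mul_left h8 (by positivity)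
  refine h6.trans ?_
  have h7 : 0 < (Real.log X) ^ (-δ + ε / 2) := Real.rpow_pos_of_pos hL _
  have hL1 : 1 ≤ Real.log X := by
    have := (Real.log_pos_iff hL.le).1 hX5
    exact this.le
  calc (C + 1) / z ^ m * X * (Real.log X) ^ (-δ + ε / 2) ≤
        (Real.log X) ^ (ε / 8) * X * (Real.log X) ^ (-δ + ε / 2) := by
        gcongr
    _ = X * (Real.log X) ^ (-δ + ε / 2 + ε / 8) := by
        rw [Real.rpow_add hL (-δ + ε / 2)]; ring
    _ ≤ X * (Real.log X) ^ (-δ + ε) := by
        apply mul_le_mul_of_nonneg_left _ hX0.le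
        exact Real.rpow_le_rpow_of_exponent_le hL1 (by linarith)

end PS

end Pool.Agent.U360.TQ
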