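import Pool.Agent.U360.TQ.An2

/-!
# Finite sets of primes: the lower bound
-/

set_option autoImplicit false

open Filter Topology Finset

noncomputable section

open scoped Classical

namespace Pool.Agent.U360.TQ

namespace PS

variable {ι : Type} (A : PS ι)

theorem log_le_sqrt (c : ℝ) (hc : 0 < c) : ∀ᶠ X : ℕ in atTop, Real.log X ≤ c * Real.sqrt X := by
  have h1 := isLittleO_log_rpow_atTop (show (0 : ℝ) < 1 / 2 by norm_num)
  have h2 := (h1.comp_tendsto (tendsto_natCast_atTop_atTop (R := ℝ))).def hc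
  filter_upwards [h2] with X hX
  simp only [Function.comp_apply, Real.norm_eq_abs] at hX
  rw [← Real.sqrt_eq_rpow, abs_of_nonneg (Real.sqrt_nonneg _)] at hX
  exact (le_abs_self _).trans hX

/-- Chebyshev's lower bound -/
theorem HasDens.cheb_lower {A : PS ι} {Q : ι → Prop} {δ : ℝ} (h : A.HasDens Q δ) (hδ : 0 < δ) :
    ∃ c : ℝ, 0 < c ∧ ∀ᶠ X : ℕ in atTop, c * X ≤ ∑ i ∈ (A.V X).filter Q, Real.log (A.N i) := by
  refine ⟨δ / 8, by positivity, ?_⟩
  have h1 := h.eventually (lt_mem_nhds (show δ / 2 < δ by linarith))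
  have hsq : Tendsto (fun X : ℕ => Nat.sqrt X) atTop atTop := by
    refine tendsto_atTop.2 fun b => ?_
    filter_upwards [eventually_ge_atTop (b * b)] with X hX
    exact Nat.le_sqrt.2 hX
  have h2 := hsq.eventually (h.div_tendsto.eventually (gt_mem_nhds (show (0 : ℝ) < 1 by norm_num)))
  filter_upwards [h1, h2, log_le_sqrt (δ / 4) (by positivity), eventually_ge_atTop 4] with X h1 h2 h3 h4
  have hX0 : (0 : ℝ) < X := by exact_mod_cast (by omega : 0 < X)
  have hL : 0 < Real.log X := Real.log_pos (by exact_mod_cast (by omega : 1 < X))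
  set s := Nat.sqrt X with hs
  have hs1 : 1 ≤ s := Nat.le_sqrt.2 (by omega)
  have hs0 : (0 : ℝ) < s := by exact_mod_cast hs1
  rw [div_lt_one hs0] at h2
  rw [lt_div_iff₀ hX0] at h1
  have hsX : (s : ℝ) ≤ Real.sqrt X := by
    apply Real.le_sqrt_of_sq_le
    have : s * s ≤ X := Nat.sqrt_le X
    have h5 : ((s * s : ℕ) : ℝ) ≤ X := by exact_mod_cast this
    push_cast at h5
    nlinarith
  -- the primes with norm larger than `s`
  have h5 : (A.cnt Q X : ℝ) ≤ (((A.V X).filter Q).filter (fun i => s < A.N i)).card + A.cnt Q s := by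
    have h6 : A.cnt Q X ≤ (((A.V X).filter Q).filter (fun i => s < A.N i)).card + A.cnt Q s := by
      unfold cnt
      rw [← Finset.card_filter_add_card_filter_not (s := (A.V X).filter Q) (fun i => s < A.N i)]
      apply Nat.add_le_add_left
      apply Finset.card_le_card
      intro i hi
      rw [mem_filter, mem_filter, mem_V] at hi
      rw [mem_filter, mem_V]
      exact ⟨by omega, hi.1.2⟩
    exact_mod_cast h6
  have h6 : ∑ i ∈ ((A.V X).filter Q).filter (fun i => s < A.N i), (Real.log X / 2) ≤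
      ∑ i ∈ (A.V X).filter Q, Real.log (A.N i) := by
    calc ∑ i ∈ ((A.V X).filter Q).filter (fun i => s < A.N i), (Real.log X / 2) ≤
          ∑ i ∈ ((A.V X).filter Q).filter (fun i => s < A.N i), Real.log (A.N i) := by
          refine sum_le_sum fun i hi => ?_
          rw [mem_filter] at hi
          have h7 : X < A.N i * A.N i := by
            have h8 : X < (s + 1) * (s + 1) := Nat.lt_succ_sqrt X
            have h9 : s + 1 ≤ A.N i := hi.2
            nlinarith
          have h8 : Real.log X ≤ Real.log ((A.N i : ℝ) * A.N i) :=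
            Real.log_le_log hX0 (by exact_mod_cast h7.le)
          rw [Real.log_mul (A.N_pos i).ne' (A.N_pos i).ne'] at h8
          linarith
      _ ≤ _ := sum_le_sum_of_subset_of_nonneg (filter_subset _ _) fun i _ _ => (A.log_N_pos i).le
  rw [sum_const, nsmul_eq_mul] at h6
  refine le_trans ?_ h6
  have h7 : (A.cnt Q X : ℝ) - Real.sqrt X ≤
      ((((A.V X).filter Q).filter (fun i => s < A.N i)).card : ℝ) := by linarith
  have h8 : ((A.cnt Q X : ℝ) - Real.sqrt X) * (Real.log X / 2) ≤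
      ((((A.V X).filter Q).filter (fun i => s < A.N i)).card : ℝ) * (Real.log X / 2) :=
    mul_le_mul_of_nonneg_right h7 (by positivity)
  refine le_trans ?_ h8
  have h9 : Real.sqrt X * Real.log X ≤ δ / 4 * X := by
    calc Real.sqrt X * Real.log X ≤ Real.sqrt X * (δ / 4 * Real.sqrt X) :=
          mul_le_mul_of_nonneg_left h3 (Real.sqrt_nonneg _)
      _ = δ / 4 * (Real.sqrt X * Real.sqrt X) := by ring
      _ = δ / 4 * X := by rw [Real.mul_self_sqrt hX0.le]
  nlinarith

/-- the sum of the inverse norms of the finite subsets of `Q` -/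
def R (Q : ι → Prop) (Z : ℕ) : ℝ :=
  ∑ T ∈ (A.TT Z).filter (fun T => ∀ i ∈ T, Q i), 1 / (A.nm T : ℝ)

theorem one_le_R (Q : ι → Prop) (Z : ℕ) (hZ : 1 ≤ Z) : 1 ≤ A.R Q Z := by
  have h1 : (∅ : Finset ι) ∈ (A.TT Z).filter (fun T => ∀ i ∈ T, Q i) := by
    rw [mem_filter, mem_TT]
    refine ⟨?_, fun i hi => absurd hi (Finset.notMem_empty i)⟩
    unfold nm
    rw [prod_empty]
    exact hZ
  have h2 := single_le_sum (f := fun T => 1 / (A.nm T : ℝ)) (fun T _ => by positivity) h1
  unfold R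
  refine le_trans (le_of_eq ?_) h2
  unfold nm
  simp

/-- Rankin's method -/
theorem R_ge (Q : ι → Prop) (Z Y : ℕ) (κ : ℝ) (hκ : 0 < κ) (hZ : 1 ≤ Z)
    (hY : κ * Real.log Y ≤ 1) :
    Real.exp (∑ i ∈ (A.V Y).filter Q, 1 / ((A.N i : ℝ) + 1)) -
      Real.exp (-(κ * Real.log Z) + 3 * A.S Q Y) ≤ A.R Q Z := by
  set W := (A.V Y).filter Q with hW
  have hZ0 : (0 : ℝ) < Z := by exact_mod_cast (by omega : 0 < Z)
  have hnm : ∀ T, (0 : ℝ) < A.nm T := fun T => by exact_mod_cast A.nm_pos T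
  have e1 : ∑ T ∈ W.powerset, 1 / (A.nm T : ℝ) = ∏ i ∈ W, (1 + 1 / (A.N i : ℝ)) := by
    rw [Finset.prod_one_add]
    refine sum_congr rfl fun T _ => ?_
    unfold nm
    push_cast
    simp only [one_div, prod_inv_distrib]
  have e2 : Real.exp (∑ i ∈ W, 1 / ((A.N i : ℝ) + 1)) ≤ ∏ i ∈ W, (1 + 1 / (A.N i : ℝ)) := by
    rw [Real.exp_sum]
    refine prod_le_prod (fun i _ => (Real.exp_pos _).le) fun i _ => ?_
    have h1 := A.N_pos i
    have h2 : (0 : ℝ) < 1 + 1 / (A.N i : ℝ) := by positivity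
    rw [← Real.le_log_iff_exp_le h2]
    have h3 := Real.one_sub_inv_le_log_of_pos h2
    refine le_trans (le_of_eq ?_) h3
    field_simp
    ring
  have e3 : ∑ T ∈ W.powerset, 1 / (A.nm T : ℝ) ≤ A.R Q Z +
      ∑ T ∈ W.powerset.filter (fun T => Z < A.nm T), 1 / (A.nm T : ℝ) := by
    rw [← Finset.sum_filter_add_sum_filter_not W.powerset (fun T => A.nm T ≤ Z)]
    have h1 : W.powerset.filter (fun T => ¬ A.nm T ≤ Z) = W.powerset.filter (fun T => Z < A.nm T) := by
      refine filter_congr fun T _ => ?_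
      exact not_le
    rw [h1]
    refine add_le_add_left ?_ _
    unfold R
    refine sum_le_sum_of_subset_of_nonneg ?_ fun T _ _ => by positivity
    intro T hT
    rw [mem_filter, mem_powerset] at hT
    rw [mem_filter, mem_TT]
    exact ⟨hT.2, fun i hi => (mem_filter.1 (hT.1 hi)).2⟩
  have e4 : ∑ T ∈ W.powerset.filter (fun T => Z < A.nm T), 1 / (A.nm T : ℝ) ≤
      Real.exp (-(κ * Real.log Z)) * ∑ T ∈ W.powerset, ∏ i ∈ T, (3 / (A.N i : ℝ)) := by
    rw [mul_sum]
    refine le_trans (sum_le_sum (g := fun T => Real.exp (-(κ * Real.log Z)) *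
      ∏ i ∈ T, (3 / (A.N i : ℝ))) fun T hT => ?_) (sum_le_sum_of_subset_of_nonneg
        (filter_subset _ _) fun T _ _ => mul_nonneg (Real.exp_pos _).le
          (prod_nonneg fun i _ => by have := A.N_pos i; positivity))
    rw [mem_filter, mem_powerset] at hT
    have h1 : Real.exp (κ * Real.log Z) ≤ Real.exp (κ * Real.log (A.nm T)) := by
      apply Real.exp_le_exp.2
      apply mul_le_mul_of_nonneg_left _ hκ.le
      exact Real.log_le_log hZ0 (by exact_mod_cast hT.2.le)
    have h2 : Real.exp (κ * Real.log (A.nm T)) ≤ ∏ _i ∈ T, (3 : ℝ) := by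
      rw [A.log_nm, mul_sum, Real.exp_sum]
      refine prod_le_prod (fun i _ => (Real.exp_pos _).le) fun i hi => ?_
      have h3 := hT.1 hi
      rw [hW, mem_filter, mem_V] at h3
      have h4 : κ * Real.log (A.N i) ≤ 1 := by
        refine le_trans ?_ hY
        apply mul_le_mul_of_nonneg_left _ hκ.le
        exact Real.log_le_log (A.N_pos i) (by exact_mod_cast h3.1)
      exact (Real.exp_le_exp.2 h4).trans (Real.exp_one_lt_d9.le.trans (by norm_num))
    have h3 : ∏ i ∈ T, (3 / (A.N i : ℝ)) = (∏ _i ∈ T, (3 : ℝ)) / A.nm T := by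
      rw [prod_div_distrib]
      unfold nm
      push_cast
      rfl
    rw [h3, Real.exp_neg, ← mul_div_assoc]
    apply div_le_div_of_nonneg_right _ (hnm T).le
    rw [le_inv_mul_iff₀ (Real.exp_pos _), mul_one]
    exact h1.trans h2
  have e5 : ∑ T ∈ W.powerset, ∏ i ∈ T, (3 / (A.N i : ℝ)) ≤ Real.exp (3 * A.S Q Y) := by
    rw [← Finset.prod_one_add]
    unfold S
    rw [mul_sum, Real.exp_sum]
    refine prod_le_prod (fun i _ => ?_) fun i _ => ?_
    · have := A.N_pos i
      positivity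
    · rw [add_comm]
      refine le_trans (Real.add_one_le_exp _) (le_of_eq ?_)
      congr 1
      ring
  have e6 : Real.exp (-(κ * Real.log Z)) * ∑ T ∈ W.powerset, ∏ i ∈ T, (3 / (A.N i : ℝ)) ≤
      Real.exp (-(κ * Real.log Z) + 3 * A.S Q Y) := by
    rw [Real.exp_add]
    exact mul_le_mul_of_nonneg_left e5 (Real.exp_pos _).le
  linarith

theorem S_mono_set (P : ι → Prop) (X : ℕ) : A.S P X ≤ A.S (fun _ => True) X := by
  unfold S
  refine sum_le_sum_of_subset_of_nonneg ?_ fun i _ _ => by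
    have := A.N_pos i
    positivity
  intro i hi
  have h1 := (Finset.mem_filter.1 hi).1
  simpa using h1

/-- the sum of `1 / (N + 1)` -/
theorem sum_succ_ge (Q : ι → Prop) (Y M : ℕ) (η : ℝ) (hη : 0 < η) (hM : 1 / η ≤ M) :
    (1 - η) * A.S Q Y - A.S (fun _ => True) M ≤ ∑ i ∈ (A.V Y).filter Q, 1 / ((A.N i : ℝ) + 1) := by
  have h1 : ∀ i ∈ (A.V Y).filter Q, (1 - η) * (1 / (A.N i : ℝ)) -
      (if A.N i ≤ M then 1 / (A.N i : ℝ) else 0) ≤ 1 / ((A.N i : ℝ) + 1) := by
    intro i _
    have h2 := A.N_pos i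
    split_ifs with h3
    · have h4 : 0 < 1 / (A.N i : ℝ) := by positivity
      have h5 : 0 < 1 / ((A.N i : ℝ) + 1) := by positivity
      nlinarith
    · rw [sub_zero, mul_one_div, div_le_div_iff₀ h2 (by positivity)]
      have h4 : (M : ℝ) < A.N i := by exact_mod_cast not_le.1 h3
      have h5 : 1 / η ≤ A.N i := hM.trans h4.le
      rw [div_le_iff₀ hη] at h5
      nlinarith
  have h2 := sum_le_sum h1
  rw [sum_sub_distrib, ← mul_sum] at h2
  have h3 : ∑ i ∈ (A.V Y).filter Q, (if A.N i ≤ M then 1 / (A.N i : ℝ) else 0) ≤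
      A.S (fun _ => True) M := by
    rw [← sum_filter]
    unfold S
    refine sum_le_sum_of_subset_of_nonneg ?_ fun i _ _ => by
      have := A.N_pos i
      positivity
    intro i hi
    have h4 := A.mem_V.2 (Finset.mem_filter.1 hi).2
    simpa using h4
  unfold S at h3 ⊢
  linarith

/-- the lower bound for `R` -/
theorem R_lower (hA : A.HasDens (fun _ => True) 1) {Q : ι → Prop} {δ : ℝ} (hQ : A.HasDens Q δ)
    (hδ : 0 < δ) {ε : ℝ} (hε : 0 < ε) :
    ∀ᶠ Z : ℕ in atTop, (Real.log Z) ^ (δ - ε) ≤ A.R Q Z := by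
  set η := min (min (ε / (2 * (1 + 2 * δ))) (δ / 2)) (1 / 2) with hη
  have hη0 : 0 < η := lt_min (lt_min (by positivity) (by positivity)) (by norm_num)
  have hη1 : η ≤ ε / (2 * (1 + 2 * δ)) := (min_le_left _ _).trans (min_le_left _ _)
  have hη2 : η ≤ δ / 2 := (min_le_left _ _).trans (min_le_right _ _)
  have hη3 : η ≤ 1 / 2 := min_le_right _ _
  have hη4 : η * (1 + 2 * δ) ≤ ε / 2 := by
    rw [le_div_iff₀ (by positivity)] at hη1
    linarith
  obtain ⟨M, hM⟩ := exists_nat_ge (1 / η)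
  set K := A.S (fun _ => True) M with hK
  let Yf : ℕ → ℕ := fun Z => ⌊Real.exp ((Real.log Z) ^ (1 - η))⌋₊
  have hlog : Tendsto (fun X : ℕ => Real.log X) atTop atTop :=
    Real.tendsto_log_atTop.comp tendsto_natCast_atTop_atTop
  have hpw : Tendsto (fun Z : ℕ => (Real.log Z) ^ (1 - η)) atTop atTop :=
    (tendsto_rpow_atTop (by linarith : 0 < 1 - η)).comp hlog
  have hY : Tendsto Yf atTop atTop :=
    tendsto_nat_floor_atTop.comp (Real.tendsto_exp_atTop.comp hpw)
  -- `exp (- L^η + 6 log L) → 0`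
  have hexp : ∀ᶠ Z : ℕ in atTop, 6 * Real.log (Real.log Z) ≤ (Real.log Z) ^ η := by
    have h1 := (isLittleO_log_rpow_atTop hη0).def (show (0 : ℝ) < 1 / 6 by norm_num)
    have h2 := hlog.eventually h1
    filter_upwards [h2, hlog.eventually_ge_atTop 1] with Z h3 h4
    have h5 : 0 ≤ (Real.log Z) ^ η := Real.rpow_nonneg (by linarith) _
    rw [Real.norm_eq_abs, Real.norm_eq_abs, abs_of_nonneg h5] at h3
    have := le_abs_self (Real.log (Real.log Z))
    linarith
  set K' := K + δ * (1 + Real.log 2) + 1 with hK'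
  have hbig : ∀ᶠ Z : ℕ in atTop, 2 * Real.exp K' ≤ (Real.log Z) ^ (ε / 2) :=
    ((tendsto_rpow_atTop (by positivity : 0 < ε / 2)).comp hlog).eventually_ge_atTop _
  filter_upwards [hY.eventually (hQ.lower hη0), hY.eventually (hA.upper (ε := 1) one_pos), hexp, hbig,
    hpw.eventually_ge_atTop (2 * Real.log 2), hY.eventually_ge_atTop 3, eventually_ge_atTop 3,
    tendsto_loglog.eventually_ge_atTop 0, hY.eventually (tendsto_loglog.eventually_ge_atTop 0)]
    with Z h1 h2 h3 h4 h5 h6 h7 h8 h9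
  set Y := Yf Z with hYdef
  set L := Real.log Z with hL
  have hL0 : 0 < L := Real.log_pos (by exact_mod_cast (by omega : 1 < Z))
  have hLp : 0 < L ^ (1 - η) := Real.rpow_pos_of_pos hL0 _
  have hY0 : (0 : ℝ) < Y := by exact_mod_cast (by omega : 0 < Y)
  have hYle : Real.log Y ≤ L ^ (1 - η) := by
    rw [Real.log_le_iff_le_exp hY0]
    exact Nat.floor_le (Real.exp_pos _).le
  have hYge : L ^ (1 - η) - Real.log 2 ≤ Real.log Y := by
    have h10 : Real.exp (L ^ (1 - η)) < Y + 1 := Nat.lt_floor_add_one _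
    have h11 : (1 : ℝ) ≤ Y := by exact_mod_cast (by omega : 1 ≤ Y)
    have h12 : Real.exp (L ^ (1 - η)) ≤ Y * 2 := by linarith
    have h13 := Real.log_le_log (Real.exp_pos _) h12
    rw [Real.log_exp, Real.log_mul hY0.ne' (by norm_num)] at h13
    linarith
  have hlogY : 0 < Real.log Y := Real.log_pos (by exact_mod_cast (by omega : 1 < Y))
  have hl2 : 0 < Real.log 2 := Real.log_pos (by norm_num)
  have hll : (1 - η) * Real.log L - Real.log 2 ≤ Real.log (Real.log Y) := by
    have h10 : L ^ (1 - η) / 2 ≤ Real.log Y := by linarith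
    have h11 := Real.log_le_log (by positivity) h10
    rw [Real.log_div hLp.ne' (by norm_num), Real.log_rpow hL0] at h11
    exact h11
  have hllu : Real.log (Real.log Y) ≤ Real.log L := by
    have h10 := Real.log_le_log hlogY hYle
    rw [Real.log_rpow hL0] at h10
    nlinarith
  have hκ : 0 < (L ^ (1 - η))⁻¹ := inv_pos.2 hLp
  have h10 := A.R_ge Q Z Y (L ^ (1 - η))⁻¹ hκ (by omega) (by
    rw [inv_mul_le_iff₀ hLp, mul_one]
    exact hYle)
  have h11 : (L ^ (1 - η))⁻¹ * L = L ^ η := by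
    rw [inv_mul_eq_div, div_eq_iff hLp.ne', ← Real.rpow_add hL0]
    rw [show η + (1 - η) = 1 by ring, Real.rpow_one]
  rw [← hL, h11] at h10
  have h12 : Real.exp (-(L ^ η) + 3 * A.S Q Y) ≤ 1 := by
    rw [Real.exp_le_one_iff]
    have := A.S_mono_set Q Y
    linarith
  have h13 := A.sum_succ_ge Q Y M η hη0 hM
  rw [← hK] at h13
  have h14 := A.one_le_R Q Z (by omega)
  have h15 : Real.exp (∑ i ∈ (A.V Y).filter Q, 1 / ((A.N i : ℝ) + 1)) ≤ 2 * A.R Q Z := by linarith
  have h16 : (δ - ε / 2) * Real.log L - K' ≤ ∑ i ∈ (A.V Y).filter Q, 1 / ((A.N i : ℝ) + 1) := by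
    refine le_trans ?_ h13
    have ha : (1 - η) * ((δ - η) * Real.log (Real.log Y)) ≤ (1 - η) * A.S Q Y :=
      mul_le_mul_of_nonneg_left h1 (by linarith)
    have hb : (1 - η) * (δ - η) * ((1 - η) * Real.log L - Real.log 2) ≤
        (1 - η) * (δ - η) * Real.log (Real.log Y) :=
      mul_le_mul_of_nonneg_left hll (mul_nonneg (by linarith) (by linarith))
    have hc : (1 - η) * (δ - η) * Real.log 2 ≤ δ * Real.log 2 := by
      apply mul_le_mul_of_nonneg_right _ hl2.le
      nlinarith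
    have hd : (δ - ε / 2) * Real.log L ≤ (1 - η) * (δ - η) * ((1 - η) * Real.log L) := by
      have he : δ - ε / 2 ≤ (1 - η) * (δ - η) * (1 - η) := by
        have hf : 0 ≤ η * η * (2 - η) := by
          apply mul_nonneg (mul_nonneg hη0.le hη0.le); linarith
        have hf' : 0 ≤ η * η * δ := mul_nonneg (mul_nonneg hη0.le hη0.le) hδ.le
        have hf2 : (1 - η) * (δ - η) * (1 - η) =
            δ - η * (1 + 2 * δ) + η * η * δ + η * η * (2 - η) := by ring
        rw [hf2]
        linarith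
      calc (δ - ε / 2) * Real.log L ≤ ((1 - η) * (δ - η) * (1 - η)) * Real.log L :=
            mul_le_mul_of_nonneg_right he h8
        _ = _ := by ring
    rw [mul_sub] at hb
    have hg : (1 - η) * ((δ - η) * Real.log (Real.log Y)) =
        (1 - η) * (δ - η) * Real.log (Real.log Y) := by ring
    have hh : δ * (1 + Real.log 2) = δ + δ * Real.log 2 := by ring
    rw [hK', hh]
    linarith
  have h17 := (Real.exp_le_exp.2 h16).trans h15
  rw [Real.exp_sub] at h17
  have h18 : L ^ (δ - ε) * (L ^ (ε / 2)) = Real.exp ((δ - ε / 2) * Real.log L) := by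
    rw [← Real.rpow_add hL0, Real.rpow_def_of_pos hL0]
    congr 1
    ring
  rw [← h18, div_le_iff₀ (Real.exp_pos _)] at h17
  have h19 : 0 < L ^ (δ - ε) := Real.rpow_pos_of_pos hL0 _
  have h20 : L ^ (δ - ε) * (2 * Real.exp K') ≤ A.R Q Z * (2 * Real.exp K') := by
    calc L ^ (δ - ε) * (2 * Real.exp K') ≤ L ^ (δ - ε) * L ^ (ε / 2) :=
          mul_le_mul_of_nonneg_left h4 h19.le
      _ ≤ 2 * A.R Q Z * Real.exp K' := h17
      _ = _ := by ring
  exact le_of_mul_le_mul_right h20 (by positivity)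

end PS

end Pool.Agent.U360.TQ
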