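import Pool.Agent.U360.TQ.An3

/-!
# Finite sets of primes: the lower bound for the number
-/

set_option autoImplicit false

open Filter Topology Finset

noncomputable section

open scoped Classical

namespace Pool.Agent.U360.TQ

namespace PS

variable {ι : Type} (A : PS ι)

/-- the lower bound, first part -/
theorem low1 (Q : ι → Prop) (c : ℝ) (hc : 0 < c) (n₀ X : ℕ)
    (hth : ∀ n, n₀ ≤ n → c * n ≤ ∑ i ∈ (A.V n).filter Q, Real.log (A.N i))
    (hX : n₀ ≤ Nat.sqrt X) (hX2 : 4 ≤ X) (hlog : Real.log X ≤ c / 4 * Real.sqrt X) :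
    c / 4 * X * A.R Q (Nat.sqrt X) ≤
      ((A.TT X).filter fun T => T.Nonempty ∧ ∀ i ∈ T, Q i).card * Real.log X := by
  set s := Nat.sqrt X with hs
  have hX0 : (0 : ℝ) < X := by exact_mod_cast (by omega : 0 < X)
  have hs2 : 2 ≤ s := Nat.le_sqrt.2 (by omega)
  have hss : s * s ≤ X := Nat.sqrt_le X
  have hsX : (s : ℝ) ≤ Real.sqrt X := by
    apply Real.le_sqrt_of_sq_le
    have h5 : ((s * s : ℕ) : ℝ) ≤ X := by exact_mod_cast hss
    push_cast at h5
    nlinarith
  set F := (A.TT X).filter fun T => T.Nonempty ∧ ∀ i ∈ T, Q i with hF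
  set F' := (A.TT s).filter fun T => ∀ i ∈ T, Q i with hF'
  have e1 : ∑ T ∈ F, Real.log (A.nm T) ≤ F.card * Real.log X := by
    rw [← nsmul_eq_mul, ← sum_const]
    refine sum_le_sum fun T hT => ?_
    rw [hF, mem_filter, mem_TT] at hT
    exact Real.log_le_log (by exact_mod_cast A.nm_pos T) (by exact_mod_cast hT.1)
  have e2 : ∑ T ∈ F, Real.log (A.nm T) = ∑ x ∈ F.sigma (fun T => T), Real.log (A.N x.2) := by
    rw [sum_sigma]
    refine sum_congr rfl fun T _ => ?_
    rw [A.log_nm]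
  let D : Finset (Σ _ : Finset ι, ι) :=
    F'.sigma (fun T => ((A.V (X / A.nm T)).filter Q) \ T)
  have e3 : ∑ y ∈ D, Real.log (A.N y.2) ≤ ∑ x ∈ F.sigma (fun T => T), Real.log (A.N x.2) := by
    let e : (Σ _ : Finset ι, ι) → (Σ _ : Finset ι, ι) := fun x => ⟨insert x.2 x.1, x.2⟩
    have hinj : Set.InjOn e (D : Set (Σ _ : Finset ι, ι)) := by
      rintro ⟨T, i⟩ hx ⟨T', i'⟩ hx' hee
      simp only [D, mem_coe, mem_sigma, Finset.mem_sdiff] at hx hx'
      simp only [e, Sigma.mk.injEq, heq_eq_eq] at hee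
      obtain ⟨h2, rfl⟩ := hee
      have h3 : T = T' := by
        have h4 : (insert i T).erase i = T := Finset.erase_insert hx.2.2
        have h5 : (insert i T').erase i = T' := Finset.erase_insert hx'.2.2
        rw [← h4, h2, h5]
      rw [h3]
    calc ∑ y ∈ D, Real.log (A.N y.2) = ∑ y ∈ D, Real.log (A.N (e y).2) := rfl
      _ = ∑ x ∈ D.image e, Real.log (A.N x.2) :=
          (sum_image (f := fun y : (Σ _ : Finset ι, ι) => Real.log (A.N y.2)) hinj).symm
      _ ≤ _ := by
          refine sum_le_sum_of_subset_of_nonneg ?_ fun y _ _ => (A.log_N_pos _).le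
          intro y hy
          rw [mem_image] at hy
          obtain ⟨⟨T, i⟩, hx, rfl⟩ := hy
          simp only [D, mem_sigma, Finset.mem_sdiff, mem_filter, mem_V, hF', mem_TT] at hx
          obtain ⟨⟨h1, h2⟩, ⟨h3, h4⟩, h5⟩ := hx
          rw [mem_sigma]
          change insert i T ∈ F ∧ i ∈ insert i T
          refine ⟨?_, mem_insert_self _ _⟩
          rw [hF, mem_filter, mem_TT]
          refine ⟨?_, ⟨i, mem_insert_self _ _⟩, ?_⟩
          · rw [A.nm_insert h5]
            exact (Nat.le_div_iff_mul_le (A.nm_pos T)).1 h3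
          · intro j hj
            rcases mem_insert.1 hj with rfl | hj
            · exact h4
            · exact h2 j hj
  have e4 : c / 4 * X * A.R Q s ≤ ∑ y ∈ D, Real.log (A.N y.2) := by
    simp only [D]
    rw [sum_sigma]
    unfold R
    rw [mul_sum]
    refine sum_le_sum fun T hT => ?_
    change c / 4 * X * (1 / (A.nm T : ℝ)) ≤
      ∑ i ∈ ((A.V (X / A.nm T)).filter Q) \ T, Real.log (A.N i)
    rw [mem_filter, mem_TT] at hT
    have hn0 := A.nm_pos T
    have hnr : (0 : ℝ) < A.nm T := by exact_mod_cast hn0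
    have h1 : s ≤ X / A.nm T := by
      rw [Nat.le_div_iff_mul_le hn0]
      exact (Nat.mul_le_mul_left s hT.1).trans hss
    have h2 := hth (X / A.nm T) (hX.trans h1)
    have h3 : (X : ℝ) / A.nm T / 2 ≤ ((X / A.nm T : ℕ) : ℝ) := by
      have h4 : (X : ℝ) / A.nm T < ((X / A.nm T : ℕ) : ℝ) + 1 := by
        rw [div_lt_iff₀ hnr]
        have h5 : X < (X / A.nm T + 1) * A.nm T := by
          have := Nat.lt_div_mul_add hn0 (a := X)
          linarith [this]
        exact_mod_cast h5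
      have h6 : (2 : ℝ) ≤ ((X / A.nm T : ℕ) : ℝ) := by exact_mod_cast hs2.trans h1
      linarith
    have h4 : Real.log (A.nm T) ≤ c / 4 * (X / A.nm T) := by
      have h5 : (A.nm T : ℝ) ≤ Real.sqrt X := (by exact_mod_cast hT.1 : (A.nm T : ℝ) ≤ s).trans hsX
      have h6 : Real.log (A.nm T) ≤ Real.log X := by
        apply Real.log_le_log hnr
        exact_mod_cast hT.1.trans (Nat.sqrt_le_self X)
      have h7 : Real.sqrt X ≤ X / A.nm T := by
        rw [le_div_iff₀ hnr]
        calc Real.sqrt X * A.nm T ≤ Real.sqrt X * Real.sqrt X :=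
              mul_le_mul_of_nonneg_left h5 (Real.sqrt_nonneg _)
          _ = X := Real.mul_self_sqrt hX0.le
      calc Real.log (A.nm T) ≤ c / 4 * Real.sqrt X := h6.trans hlog
        _ ≤ _ := mul_le_mul_of_nonneg_left h7 (by positivity)
    have h5 : (∑ i ∈ (A.V (X / A.nm T)).filter Q, Real.log (A.N i)) - Real.log (A.nm T) ≤
        ∑ i ∈ ((A.V (X / A.nm T)).filter Q) \ T, Real.log (A.N i) := by
      rw [A.log_nm, sub_le_iff_le_add]
      calc ∑ i ∈ (A.V (X / A.nm T)).filter Q, Real.log (A.N i) ≤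
            ∑ i ∈ (((A.V (X / A.nm T)).filter Q) \ T) ∪ T, Real.log (A.N i) := by
            refine sum_le_sum_of_subset_of_nonneg ?_ fun i _ _ => (A.log_N_pos i).le
            intro i hi
            by_cases h : i ∈ T
            · exact mem_union_right _ h
            · exact mem_union_left _ (Finset.mem_sdiff.2 ⟨hi, h⟩)
        _ = _ := by
            rw [sum_union]
            exact Finset.sdiff_disjoint
    have h6 : c * ((X : ℝ) / A.nm T / 2) ≤ c * ((X / A.nm T : ℕ) : ℝ) :=
      mul_le_mul_of_nonneg_left h3 hc.le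
    have h7 : c / 4 * X * (1 / (A.nm T : ℝ)) = c / 4 * (X / A.nm T) := by ring
    rw [h7]
    linarith
  linarith

/-- **Lower bound.** The number of the nonempty finite subsets of the set `Q` of density `δ > 0` is at
least `X (log X)^(δ - 1 - ε)`. -/
theorem lower (hA : A.HasDens (fun _ => True) 1) {Q : ι → Prop} {δ : ℝ} (hQ : A.HasDens Q δ)
    (hδ : 0 < δ) {ε : ℝ} (hε : 0 < ε) :
    ∀ᶠ X : ℕ in atTop, X * (Real.log X) ^ (δ - 1 - ε) ≤
      (((A.TT X).filter fun T => T.Nonempty ∧ ∀ i ∈ T, Q i).card : ℝ) := by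
  obtain ⟨c, hc, hth⟩ := hQ.cheb_lower hδ
  obtain ⟨n₀, hn₀⟩ := eventually_atTop.1 hth
  have hsq : Tendsto (fun X : ℕ => Nat.sqrt X) atTop atTop := by
    refine tendsto_atTop.2 fun b => ?_
    filter_upwards [eventually_ge_atTop (b * b)] with X hX
    exact Nat.le_sqrt.2 hX
  have hlog : Tendsto (fun X : ℕ => Real.log X) atTop atTop :=
    Real.tendsto_log_atTop.comp tendsto_natCast_atTop_atTop
  set a := δ - ε / 2 with ha
  set c' := c / 4 * (1 / 4 : ℝ) ^ |a| with hc'
  have hc'0 : 0 < c' := by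
    have : (0 : ℝ) < (1 / 4 : ℝ) ^ |a| := Real.rpow_pos_of_pos (by norm_num) _
    positivity
  have hbig : ∀ᶠ X : ℕ in atTop, 1 / c' ≤ (Real.log X) ^ (ε / 2) :=
    ((tendsto_rpow_atTop (by positivity : 0 < ε / 2)).comp hlog).eventually_ge_atTop _
  filter_upwards [hsq.eventually (A.R_lower hA hQ hδ (show 0 < ε / 2 by positivity)), hbig,
    hsq.eventually_ge_atTop n₀, hsq.eventually_ge_atTop 2, eventually_ge_atTop 4,
    log_le_sqrt (c / 4) (by positivity), hlog.eventually_ge_atTop (2 * Real.log 4)]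
    with X h1 h2 h3 h3' h4 h5 h6
  have h7 := A.low1 Q c hc n₀ X hn₀ h3 h4 h5
  set s := Nat.sqrt X with hs
  have hX0 : (0 : ℝ) < X := by exact_mod_cast (by omega : 0 < X)
  have hL : 0 < Real.log X := Real.log_pos (by exact_mod_cast (by omega : 1 < X))
  have hs0 : (0 : ℝ) < s := by exact_mod_cast (by omega : 0 < s)
  have hLs : 0 < Real.log s := Real.log_pos (by exact_mod_cast (by omega : 1 < s))
  have h8 : Real.log X / 4 ≤ Real.log s := by
    have h9 : X < (s + 1) * (s + 1) := Nat.lt_succ_sqrt X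
    have h10 : X ≤ 4 * (s * s) := by nlinarith
    have h11 : Real.log X ≤ Real.log (4 * ((s : ℝ) * s)) :=
      Real.log_le_log hX0 (by exact_mod_cast h10)
    rw [Real.log_mul (by norm_num) (by positivity), Real.log_mul hs0.ne' hs0.ne'] at h11
    linarith
  have h9 : Real.log s ≤ Real.log X :=
    Real.log_le_log hs0 (by exact_mod_cast Nat.sqrt_le_self X)
  have h10 : (1 / 4 : ℝ) ^ |a| * (Real.log X) ^ a ≤ (Real.log s) ^ a := by
    have h11 : Real.log s = (Real.log s / Real.log X) * Real.log X := by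
      field_simp
    rw [h11, Real.mul_rpow (div_pos hLs hL).le hL.le]
    apply mul_le_mul_of_nonneg_right _ (Real.rpow_pos_of_pos hL _).le
    have h12 : (1 / 4 : ℝ) ≤ Real.log s / Real.log X := by
      rw [le_div_iff₀ hL]
      linarith
    have h13 : Real.log s / Real.log X ≤ 1 := by
      rw [div_le_one hL]
      exact h9
    calc (1 / 4 : ℝ) ^ |a| ≤ (Real.log s / Real.log X) ^ |a| :=
          Real.rpow_le_rpow (by norm_num) h12 (abs_nonneg _)
      _ ≤ (Real.log s / Real.log X) ^ a :=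
          Real.rpow_le_rpow_of_exponent_ge (div_pos hLs hL) h13 (le_abs_self a)
  have h11 : c' * X * (Real.log X) ^ a ≤
      (((A.TT X).filter fun T => T.Nonempty ∧ ∀ i ∈ T, Q i).card : ℝ) * Real.log X := by
    refine le_trans ?_ h7
    calc c' * X * (Real.log X) ^ a = c / 4 * X * ((1 / 4 : ℝ) ^ |a| * (Real.log X) ^ a) := by
          rw [hc']; ring
      _ ≤ c / 4 * X * A.R Q s := mul_le_mul_of_nonneg_left (h10.trans h1) (by positivity)
  have h12 : (Real.log X) ^ a = (Real.log X) ^ (δ - 1 - ε) * (Real.log X) ^ (ε / 2) *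
      Real.log X := by
    conv_rhs => rw [← Real.rpow_one (Real.log X), ← Real.rpow_mul hL.le, ← Real.rpow_mul hL.le]
    rw [← Real.rpow_add (by positivity), ← Real.rpow_add (by positivity)]
    congr 1
    rw [ha]
    ring
  rw [h12] at h11
  have h13 : c' * X * ((Real.log X) ^ (δ - 1 - ε) * (Real.log X) ^ (ε / 2)) ≤
      (((A.TT X).filter fun T => T.Nonempty ∧ ∀ i ∈ T, Q i).card : ℝ) := by
    refine le_of_mul_le_mul_right ?_ hL
    calc _ = c' * X * ((Real.log X) ^ (δ - 1 - ε) * (Real.log X) ^ (ε / 2) * Real.log X) := by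
          ring
      _ ≤ _ := h11
  refine le_trans ?_ h13
  have h14 : 1 ≤ c' * (Real.log X) ^ (ε / 2) := by
    rw [div_le_iff₀ hc'0] at h2
    linarith
  have h15 : 0 ≤ X * (Real.log X) ^ (δ - 1 - ε) := by
    have := Real.rpow_pos_of_pos hL (δ - 1 - ε)
    positivity
  calc X * (Real.log X) ^ (δ - 1 - ε) ≤ X * (Real.log X) ^ (δ - 1 - ε) *
        (c' * (Real.log X) ^ (ε / 2)) := le_mul_of_one_le_right h15 h14
    _ = _ := by ring

/-- the number of the primes is a lower bound for the number of sets -/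
theorem lower_one {Q : ι → Prop} {δ : ℝ} (hQ : A.HasDens Q δ) (hδ : 0 < δ) {ε : ℝ} (hε : 0 < ε) :
    ∀ᶠ X : ℕ in atTop, X * (Real.log X) ^ (-1 - ε) ≤ (A.cnt Q X : ℝ) := by
  have hlog : Tendsto (fun X : ℕ => Real.log X) atTop atTop :=
    Real.tendsto_log_atTop.comp tendsto_natCast_atTop_atTop
  have h1 := hQ.eventually (lt_mem_nhds (show δ / 2 < δ by linarith))
  have hbig : ∀ᶠ X : ℕ in atTop, 2 / δ ≤ (Real.log X) ^ ε :=
    ((tendsto_rpow_atTop hε).comp hlog).eventually_ge_atTop _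
  filter_upwards [h1, hbig, eventually_ge_atTop 2] with X h1 h2 h3
  have hX0 : (0 : ℝ) < X := by exact_mod_cast (by omega : 0 < X)
  have hL : 0 < Real.log X := Real.log_pos (by exact_mod_cast (by omega : 1 < X))
  rw [lt_div_iff₀ hX0] at h1
  have h4 : 0 < (Real.log X) ^ ε := Real.rpow_pos_of_pos hL _
  rw [show -1 - ε = -(1 + ε) by ring, Real.rpow_neg hL.le, Real.rpow_add hL, Real.rpow_one,
    ← div_eq_mul_inv, div_le_iff₀ (by positivity)]
  rw [div_le_iff₀ hδ] at h2
  have h5 : X ≤ (A.cnt Q X : ℝ) * Real.log X * (2 / δ) := by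
    rw [← mul_div_assoc, le_div_iff₀ hδ]
    linarith
  have h6 : 2 / δ ≤ (Real.log X) ^ ε := by
    rw [div_le_iff₀ hδ]
    exact h2
  calc (X : ℝ) ≤ (A.cnt Q X : ℝ) * Real.log X * (2 / δ) := h5
    _ ≤ (A.cnt Q X : ℝ) * Real.log X * (Real.log X) ^ ε :=
        mul_le_mul_of_nonneg_left h6 (by positivity)
    _ = _ := by ring

end PS

end Pool.Agent.U360.TQ
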