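import Pool.Agent.U360.TQ.An4
import Pool.Agent.U360.RS.Dens
import Pool.Agent.U360.RS.Dick
import Pool.Agent.W515.Cheb.Mean
import Pool.Agent.K3h33.RS.Sieve

/-!
# The prime ideals of a number field, densities of Frobenius classes
-/

set_option autoImplicit false
set_option linter.unusedSectionVars false

open NumberField IsDedekindDomain Filter Topology

noncomputable section

namespace Pool.Agent.U360.TQ

open Pool.Agent.K3h30.RS Pool.Agent.K3h43.RS Pool.Agent.K3h8.RS Pool.Agent.W401.Cheb
open Pool.Agent.U360.RS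

/-- the prime ideals of a number field -/
def PF (F : Type) [Field F] [NumberField F] : PS (HeightOneSpectrum (𝓞 F)) where
  N v := Ideal.absNorm v.asIdeal
  two v := Pool.Agent.K3h33.RS.norm_two v
  fin X := Pool.Agent.W352.ChAbs.finite_le X

section

variable {F L : Type} [Field F] [NumberField F] [Field L] [NumberField L] [Algebra F L]

theorem cnt_eq (P : HeightOneSpectrum (𝓞 F) → Prop) (X : ℕ) :
    Nat.card {v : HeightOneSpectrum (𝓞 F) // Ideal.absNorm v.asIdeal ≤ X ∧ P v} =
      (PF F).cnt P X := by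
  classical
  have e1 : Nat.card {v : HeightOneSpectrum (𝓞 F) // Ideal.absNorm v.asIdeal ≤ X ∧ P v} =
      Set.ncard {v : HeightOneSpectrum (𝓞 F) | Ideal.absNorm v.asIdeal ≤ X ∧ P v} :=
    Nat.card_coe_set_eq _
  unfold PS.cnt
  rw [e1, ← Set.ncard_coe_finset]
  congr 1
  ext v
  rw [Finset.mem_coe, Finset.mem_filter, PS.mem_V]
  rfl

theorem hasDens_of {P : HeightOneSpectrum (𝓞 F) → Prop} {δ : ℝ}
    (h : Tendsto (dens P) atTop (𝓝 δ)) : (PF F).HasDens P δ := by
  have hpi : Tendsto (fun N : ℕ => (Nat.primeCounting N : ℝ) * Real.log N / N) atTop (𝓝 1) := by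
    have := Pool.Agent.Helper923.PNT.pi_tendsto.comp (tendsto_natCast_atTop_atTop (R := ℝ))
    refine this.congr fun N => ?_
    simp only [Function.comp, Nat.floor_natCast]
  have h1 := h.mul hpi
  rw [mul_one] at h1
  have h4 : ∀ᶠ X : ℕ in atTop, (1 : ℝ) ≤ (Nat.primeCounting X : ℝ) :=
    (tendsto_natCast_atTop_atTop.comp Nat.tendsto_primeCounting).eventually_ge_atTop _
  refine h1.congr' ?_
  filter_upwards [h4] with X hX
  have hX0 : (Nat.primeCounting X : ℝ) ≠ 0 := by positivity
  unfold dens
  rw [cnt_eq]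
  field_simp

theorem hasDens_one : (PF F).HasDens (fun _ => True) 1 := by
  have h2 := cheb_dens (F := F) (L := F) Set.univ (fun _ _ _ => Set.mem_univ _) (fun _ => True) ∅
    (fun v _ Φ _ => by simp)
  rw [Set.ncard_univ, div_self (by exact_mod_cast Nat.card_pos.ne')] at h2
  exact hasDens_of h2

end

end Pool.Agent.U360.TQ
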