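import Pool.Agent.U360.RS.Main

/-!
# Frobenius automorphisms are unique up to conjugation outside a finite set
-/

set_option autoImplicit false
set_option linter.unusedSectionVars false

open NumberField IsDedekindDomain

noncomputable section

namespace Pool.Agent.U360.TQ

open Pool.Agent.K3h30.RS Pool.Agent.K3h43.RS Pool.Agent.K3h8.RS
open Pool.Agent.U360.RS

section

variable {F L : Type} [Field F] [NumberField F] [Field L] [NumberField L] [Algebra F L]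

theorem frob_mem_iff (P : HeightOneSpectrum (𝓞 L)) (Φ : L ≃ₐ[F] L) (n : ℕ) (x : 𝓞 L) :
    P.valuation L (Φ (x : L) - (x : L) ^ n) < 1 ↔ Φ • x - x ^ n ∈ P.asIdeal := by
  rw [← P.valuation_lt_one_iff_mem (K := L)]
  have h3 : ((Φ • x - x ^ n : 𝓞 L) : L) = Φ (x : L) - (x : L) ^ n := by
    push_cast
    rfl
  rw [← h3]

theorem exists_ne {σ τ : L ≃ₐ[F] L} (h : σ ≠ τ) : ∃ x : 𝓞 L, σ • x - τ • x ≠ 0 := by
  by_contra hcon
  push Not at hcon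
  apply h
  have h1 : ∀ x : 𝓞 L, σ (x : L) = τ (x : L) := by
    intro x
    have h2 := sub_eq_zero.1 (hcon x)
    exact congrArg (fun y : 𝓞 L => (y : L)) h2
  refine AlgEquiv.ext fun y => ?_
  obtain ⟨a, b, hb, rfl⟩ := IsFractionRing.div_surjective (A := 𝓞 L) y
  rw [map_div₀, map_div₀]
  exact congrArg₂ (· / ·) (h1 a) (h1 b)

theorem finite_below (A : Set (HeightOneSpectrum (𝓞 L))) (hA : A.Finite) :
    {v : HeightOneSpectrum (𝓞 F) | ∃ P ∈ A, P.asIdeal.comap (algebraMap (𝓞 F) (𝓞 L)) =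
      v.asIdeal}.Finite := by
  have h1 : ((fun P : HeightOneSpectrum (𝓞 L) =>
      P.asIdeal.comap (algebraMap (𝓞 F) (𝓞 L))) '' A).Finite := hA.image _
  refine (h1.preimage (f := fun v : HeightOneSpectrum (𝓞 F) => v.asIdeal) ?_).subset ?_
  · intro v _ w _ h
    exact HeightOneSpectrum.ext h
  · rintro v ⟨P, hP, hPv⟩
    exact ⟨P, hP, hPv⟩

theorem frob_unique [IsGalois F L] : ∃ bad : Finset (HeightOneSpectrum (𝓞 F)),
    ∀ v, v ∉ bad → ∀ Φ Φ' : L ≃ₐ[F] L, HasFrob Φ v → HasFrob Φ' v →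
      ∃ Ψ : L ≃ₐ[F] L, Φ' = Ψ * Φ * Ψ⁻¹ := by
  classical
  choose! x hx using fun (p : (L ≃ₐ[F] L) × (L ≃ₐ[F] L)) (h : p.1 ≠ p.2) => exists_ne h
  have hfin : ∀ p : (L ≃ₐ[F] L) × (L ≃ₐ[F] L), p.1 ≠ p.2 →
      {P : HeightOneSpectrum (𝓞 L) | p.1 • x p - p.2 • x p ∈ P.asIdeal}.Finite := by
    intro p hp
    have h1 := Pool.Agent.K3h43.RS.finite_lt (H := L) ((p.1 • x p - p.2 • x p : 𝓞 L) : L)
      (fun h => hx p hp (RingOfIntegers.coe_eq_zero_iff.1 h))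
    refine h1.subset ?_
    intro P hP
    exact (P.valuation_lt_one_iff_mem (K := L) _).2 hP
  have hA : (⋃ p : {p : (L ≃ₐ[F] L) × (L ≃ₐ[F] L) // p.1 ≠ p.2},
      {P : HeightOneSpectrum (𝓞 L) | p.1.1 • x p.1 - p.1.2 • x p.1 ∈ P.asIdeal}).Finite :=
    Set.finite_iUnion fun p => hfin p.1 p.2
  refine ⟨(finite_below (F := F) _ hA).toFinset, ?_⟩
  intro v hv Φ Φ' hΦ hΦ'
  rw [Set.Finite.mem_toFinset] at hv
  obtain ⟨P, hP, hΦ⟩ := hΦ
  obtain ⟨P', hP', hΦ'⟩ := hΦ'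
  rw [above_singleton] at hP hP'
  have hG : IsGaloisGroup (L ≃ₐ[F] L) (𝓞 F) (𝓞 L) := inferInstance
  have hs : SMulCommClass (L ≃ₐ[F] L) (𝓞 F) (𝓞 L) := hG.commutes
  have hinv : Algebra.IsInvariant (𝓞 F) (𝓞 L) (L ≃ₐ[F] L) := hG.isInvariant
  have := P.isPrime
  have := P'.isPrime
  obtain ⟨g, hg⟩ := Algebra.IsInvariant.exists_smul_of_under_eq (𝓞 F) (𝓞 L) (L ≃ₐ[F] L) P.asIdeal
    P'.asIdeal (hP.trans hP'.symm)
  refine ⟨g, ?_⟩
  by_contra hne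
  have hne' : Φ ≠ g⁻¹ * Φ' * g := by
    intro h
    apply hne
    rw [h]
    group
  apply hv
  refine ⟨P, Set.mem_iUnion.2 ⟨⟨(Φ, g⁻¹ * Φ' * g), hne'⟩, ?_⟩, hP⟩
  change Φ • x (Φ, g⁻¹ * Φ' * g) - (g⁻¹ * Φ' * g) • x (Φ, g⁻¹ * Φ' * g) ∈ P.asIdeal
  generalize x (Φ, g⁻¹ * Φ' * g) = z
  have h1 := (frob_mem_iff P Φ _ z).1 (hΦ z)
  have h2 := (frob_mem_iff P' Φ' _ (g • z)).1 (hΦ' (g • z))
  rw [hg, Ideal.mem_pointwise_smul_iff_inv_smul_mem] at h2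
  have h3 : g⁻¹ • (Φ' • g • z - (g • z) ^ Ideal.absNorm v.asIdeal) =
      (g⁻¹ * Φ' * g) • z - z ^ Ideal.absNorm v.asIdeal := by
    rw [smul_sub, smul_pow', inv_smul_smul, mul_smul, mul_smul]
  rw [h3] at h2
  have h4 := P.asIdeal.sub_mem h1 h2
  rwa [sub_sub_sub_cancel_right] at h4

end

end Pool.Agent.U360.TQ
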