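import Pool.Agent.U360.TQ.Ar1
import Pool.Agent.U360.TQ.Ar2

/-!
# The number of the sets `T` for which Rubin's conjecture fails
-/

set_option autoImplicit false
set_option linter.unusedSectionVars false

open NumberField IsDedekindDomain Filter Topology

noncomputable section

namespace Pool.Agent.U360.TQ

open Pool.Agent.K3h30.RS Pool.Agent.K3h43.RS Pool.Agent.K3h8.RS Pool.Agent.W401.Cheb
open Pool.Agent.U360.RS

variable {F H G : Type} [Field F] [NumberField F] [Field H] [NumberField H] [Algebra F H]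
  [CommGroup G] [Finite G] [MulSemiringAction G H]

/-- The number of the admissible sets `T` of norm at most `X` for which Rubin's conjecture fails. -/
def exc (D : RubinData F H G) (X : ℕ) : ℕ :=
  Nat.card {T : Finset (HeightOneSpectrum (𝓞 F)) // D.Allowed T ∧ ¬ D.Rubin T ∧
    ∏ v ∈ T, Ideal.absNorm v.asIdeal ≤ X}

/-- the finite description, for a given exceptional set -/
theorem finite_list_of [hG : IsGaloisGroup G F H] (D : RubinData F H G)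
    (L : Type) [Field L] [NumberField L] [Algebra F L] [IsGalois F L]
    (bad : Finset (HeightOneSpectrum (𝓞 F))) (hbad : ∀ v, v ∉ bad → D.Allowed {v})
    (hL : ∀ T T' : Finset (HeightOneSpectrum (𝓞 F)), Disjoint bad T → Disjoint bad T' →
        SameFrob L T T' → (D.Rubin T ↔ D.Rubin T')) :
    ∃ 𝓜 : Finset (Finset (HeightOneSpectrum (𝓞 F))),
        (∀ M ∈ 𝓜, M.Nonempty ∧ Disjoint bad M) ∧
        ∀ T : Finset (HeightOneSpectrum (𝓞 F)), T.Nonempty → Disjoint bad T →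
          (D.Rubin T ↔ ∃ M ∈ 𝓜, EmbFrob L M T) := by
  classical
  -- upward closed
  have hup : ∀ M T : Finset (HeightOneSpectrum (𝓞 F)), M.Nonempty → Disjoint bad M →
      Disjoint bad T → EmbFrob L M T → D.Rubin M → D.Rubin T := by
    intro M T hM hbM hbT hemb hR
    obtain ⟨T₀, hT₀, hsame⟩ := hemb.exists_image
    have hbT₀ : Disjoint bad T₀ := Finset.disjoint_of_subset_right hT₀ hbT
    have h1 : D.Rubin T₀ := (hL M T₀ hbM hbT₀ hsame).1 hR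
    have hne : T₀.Nonempty := by
      obtain ⟨e, -⟩ := hsame
      obtain ⟨m, hm⟩ := hM
      exact ⟨e ⟨m, hm⟩, (e ⟨m, hm⟩).2⟩
    obtain ⟨v, hv⟩ := hne
    have hvb : v ∉ bad := fun hh => (Finset.disjoint_left.1 hbT₀ hh) hv
    have hall := hbad v hvb
    have hdis : Disjoint D.S T := by
      rw [Finset.disjoint_left]
      intro x hx hxT
      have h2 := (hbad x fun hh => (Finset.disjoint_left.1 hbT hh) hxT).1
      exact (Finset.disjoint_singleton_right.1 h2) hx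
    refine rubin_mono D hT₀ hdis hv ?_ h1
    rcases hall.2 with ⟨x, hx, y, hy, hxy⟩ | ⟨x, hx, hx'⟩
    · rw [Finset.mem_singleton] at hx hy
      rw [hx, hy] at hxy
      exact absurd rfl hxy
    · rw [Finset.mem_singleton] at hx
      rwa [hx] at hx'
  -- the minimal elements
  let P : (Set (L ≃ₐ[F] L) → ℕ) → Prop := fun n => ∃ T : Finset (HeightOneSpectrum (𝓞 F)),
    T.Nonempty ∧ Disjoint bad T ∧ D.Rubin T ∧ fcount L T = n
  have hfin : {n | Minimal P n}.Finite :=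
    (setOfPred_minimal_antichain P).finite_of_partiallyWellOrderedOn
      (Set.isPWO_of_wellQuasiOrderedLE _)
  choose! g hg using fun n (hn : P n) => hn
  refine ⟨hfin.toFinset.image g, ?_, ?_⟩
  · intro M hM
    obtain ⟨n, hn, rfl⟩ := Finset.mem_image.1 hM
    rw [Set.Finite.mem_toFinset] at hn
    have h1 := hg n hn.1
    exact ⟨h1.1, h1.2.1⟩
  · intro T hT hbT
    constructor
    · intro hR
      obtain ⟨n, hn, hmin⟩ := exists_minimal_le_of_wellFoundedLT P (fcount L T)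
        ⟨T, hT, hbT, hR, rfl⟩
      refine ⟨g n, Finset.mem_image_of_mem g ((Set.Finite.mem_toFinset hfin).2 hmin), ?_⟩
      have h1 := hg n hmin.1
      refine embFrob_of_le ?_
      rw [h1.2.2.2]
      exact hn
    · rintro ⟨M, hM, hemb⟩
      obtain ⟨n, hn, rfl⟩ := Finset.mem_image.1 hM
      rw [Set.Finite.mem_toFinset] at hn
      have h1 := hg n hn.1
      exact hup _ T h1.1 h1.2.1 hbT hemb h1.2.2.1

section

variable {L : Type} [Field L] [NumberField L] [Algebra F L]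

/-- the prime ideals outside `bad` with Frobenius automorphisms in `𝒞` -/
def QQ (bad : Finset (HeightOneSpectrum (𝓞 F))) (𝒞 : Set (L ≃ₐ[F] L))
    (v : HeightOneSpectrum (𝓞 F)) : Prop := v ∉ bad ∧ ∃ Φ ∈ 𝒞, HasFrob Φ v

/-- closed under conjugation -/
def Cl (𝒞 : Set (L ≃ₐ[F] L)) : Prop := ∀ Φ ∈ 𝒞, ∀ Ψ : L ≃ₐ[F] L, Ψ * Φ * Ψ⁻¹ ∈ 𝒞

theorem Cl.compl {𝒞 : Set (L ≃ₐ[F] L)} (h : Cl 𝒞) : Cl 𝒞ᶜ := by
  intro Φ hΦ Ψ hcon
  apply hΦ
  have h1 := h _ hcon Ψ⁻¹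
  have h2 : Ψ⁻¹ * (Ψ * Φ * Ψ⁻¹) * Ψ⁻¹⁻¹ = Φ := by group
  rwa [h2] at h1

theorem QQ_iff {bad : Finset (HeightOneSpectrum (𝓞 F))}
    (hun : ∀ v, v ∉ bad → ∀ Φ Φ' : L ≃ₐ[F] L, HasFrob Φ v → HasFrob Φ' v →
      ∃ Ψ : L ≃ₐ[F] L, Φ' = Ψ * Φ * Ψ⁻¹) {𝒞 : Set (L ≃ₐ[F] L)} (h𝒞 : Cl 𝒞)
    {v : HeightOneSpectrum (𝓞 F)} (hv : v ∉ bad) {Φ : L ≃ₐ[F] L} (hΦ : HasFrob Φ v) :
    QQ bad 𝒞 v ↔ Φ ∈ 𝒞 := by
  constructor
  · rintro ⟨-, Φ', h1, h2⟩
    obtain ⟨Ψ, rfl⟩ := hun v hv Φ' Φ h2 hΦ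
    exact h𝒞 _ h1 _
  · intro h
    exact ⟨hv, Φ, h, hΦ⟩

theorem QQ_dens [IsGalois F L] {bad : Finset (HeightOneSpectrum (𝓞 F))}
    (hun : ∀ v, v ∉ bad → ∀ Φ Φ' : L ≃ₐ[F] L, HasFrob Φ v → HasFrob Φ' v →
      ∃ Ψ : L ≃ₐ[F] L, Φ' = Ψ * Φ * Ψ⁻¹) {𝒞 : Set (L ≃ₐ[F] L)} (h𝒞 : Cl 𝒞) :
    (PF F).HasDens (QQ bad 𝒞) ((𝒞.ncard : ℝ) / (Nat.card (L ≃ₐ[F] L) : ℝ)) :=
  hasDens_of (cheb_dens 𝒞 h𝒞 _ bad fun _ hv _ hΦ => QQ_iff hun h𝒞 hv hΦ)

/-- the sets of classes which contain no element of the list -/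
def Av (𝓜 : Finset (Finset (HeightOneSpectrum (𝓞 F)))) (𝒞 : Set (L ≃ₐ[F] L)) : Prop :=
  ∀ M ∈ 𝓜, ∃ x ∈ M, ∀ Φ ∈ 𝒞, ¬ HasFrob Φ x

theorem type_eq {bad : Finset (HeightOneSpectrum (𝓞 F))}
    (hun : ∀ v, v ∉ bad → ∀ Φ Φ' : L ≃ₐ[F] L, HasFrob Φ v → HasFrob Φ' v →
      ∃ Ψ : L ≃ₐ[F] L, Φ' = Ψ * Φ * Ψ⁻¹) {x t : HeightOneSpectrum (𝓞 F)} (hx : x ∉ bad)
    (ht : t ∉ bad) {Φ : L ≃ₐ[F] L} (hΦx : HasFrob Φ x) (hΦt : HasFrob Φ t) :
    ftype L t = ftype L x := by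
  ext Φ'
  constructor
  · intro h
    obtain ⟨Ψ, rfl⟩ := hun t ht Φ Φ' hΦt h
    exact hasFrob_conj hΦx Ψ
  · intro h
    obtain ⟨Ψ, rfl⟩ := hun x hx Φ Φ' hΦx h
    exact hasFrob_conj hΦt Ψ

end

end Pool.Agent.U360.TQ
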