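import Pool.Agent.U360.TQ.Ar3

/-!
# The number of the sets `T` for which Rubin's conjecture fails: the exponent
-/

set_option autoImplicit false
set_option linter.unusedSectionVars false

open NumberField IsDedekindDomain Filter Topology

noncomputable section

open scoped Classical

namespace Pool.Agent.U360.TQ

open Pool.Agent.K3h30.RS Pool.Agent.K3h43.RS Pool.Agent.K3h8.RS Pool.Agent.W401.Cheb
open Pool.Agent.U360.RS

variable {F H G : Type} [Field F] [NumberField F] [Field H] [NumberField H] [Algebra F H]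
  [CommGroup G] [Finite G] [MulSemiringAction G H]

/-- large residue characteristic -/
theorem large_of_allowed {D : RubinData F H G} {v : HeightOneSpectrum (𝓞 F)}
    (h : D.Allowed {v}) : Module.finrank ℚ F + 1 < ringChar (𝓞 F ⧸ v.asIdeal) := by
  rcases h.2 with ⟨x, hx, y, hy, hxy⟩ | ⟨x, hx, hx'⟩
  · rw [Finset.mem_singleton] at hx hy
    rw [hx, hy] at hxy
    exact absurd rfl hxy
  · rw [Finset.mem_singleton] at hx
    rwa [hx] at hx'

/-- a nonempty set of good primes is admissible -/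
theorem allowed_of {D : RubinData F H G} {T : Finset (HeightOneSpectrum (𝓞 F))}
    (hne : T.Nonempty) (h : ∀ v ∈ T, D.Allowed {v}) : D.Allowed T := by
  constructor
  · rw [Finset.disjoint_left]
    intro x hx hxT
    exact (Finset.disjoint_singleton_right.1 (h x hxT).1) hx
  · obtain ⟨v, hv⟩ := hne
    exact Or.inr ⟨v, hv, large_of_allowed (h v hv)⟩

section

variable {L : Type} [Field L] [NumberField L] [Algebra F L]

theorem fail_types [hG : IsGaloisGroup G F H] [IsGalois F L] (D : RubinData F H G)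
    {bad : Finset (HeightOneSpectrum (𝓞 F))} (hbad : ∀ v, v ∉ bad → D.Allowed {v})
    (hun : ∀ v, v ∉ bad → ∀ Φ Φ' : L ≃ₐ[F] L, HasFrob Φ v → HasFrob Φ' v →
      ∃ Ψ : L ≃ₐ[F] L, Φ' = Ψ * Φ * Ψ⁻¹)
    {𝓜 : Finset (Finset (HeightOneSpectrum (𝓞 F)))}
    (h1 : ∀ M ∈ 𝓜, M.Nonempty ∧ Disjoint bad M)
    (h2 : ∀ T : Finset (HeightOneSpectrum (𝓞 F)), T.Nonempty → Disjoint bad T →
          (D.Rubin T ↔ ∃ M ∈ 𝓜, EmbFrob L M T))
    {T : Finset (HeightOneSpectrum (𝓞 F))} (hT : D.Allowed T) (hR : ¬ D.Rubin T) :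
    ∃ 𝒞 : Set (L ≃ₐ[F] L), Cl 𝒞 ∧ Av 𝓜 𝒞 ∧
      (T.filter (QQ bad 𝒞ᶜ)).card ≤ Nat.card (L ≃ₐ[F] L) * (1 + 𝓜.sup Finset.card) := by
  set m := 1 + 𝓜.sup Finset.card with hm
  set T' := T.filter fun v => v ∉ bad with hT'
  have hb' : ∀ t ∈ T', t ∉ bad := fun t ht => (Finset.mem_filter.1 ht).2
  have hsub : T' ⊆ T := Finset.filter_subset _ _
  have hdis' : Disjoint bad T' := by
    rw [Finset.disjoint_left]
    exact fun x hx hxT => hb' x hxT hx
  -- the reduced set fails as well
  have hR' : T'.Nonempty → ¬ D.Rubin T' := by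
    rintro ⟨v, hv⟩ hcon
    exact hR (rubin_mono D hsub hT.1 hv (large_of_allowed (hbad v (hb' v hv))) hcon)
  let 𝒞 : Set (L ≃ₐ[F] L) := {Φ | m ≤ (T'.filter fun t => HasFrob Φ t).card}
  refine ⟨𝒞, ?_, ?_, ?_⟩
  · intro Φ hΦ Ψ
    refine le_trans (show m ≤ (T'.filter fun t => HasFrob Φ t).card from hΦ)
      (Finset.card_le_card ?_)
    intro t ht
    rw [Finset.mem_filter] at ht ⊢
    exact ⟨ht.1, hasFrob_conj ht.2 Ψ⟩
  · intro M hM
    by_contra hcon
    push Not at hcon
    have hMc : M.card < m := by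
      have h3 : M.card ≤ 𝓜.sup Finset.card := Finset.le_sup (f := Finset.card) hM
      omega
    have hemb : EmbFrob L M T' := by
      refine embFrob_of_le fun k => ?_
      unfold fcount
      rcases isEmpty_or_nonempty {x : M // ftype L (x : HeightOneSpectrum (𝓞 F)) = k} with h3 | h3
      · rw [Nat.card_of_isEmpty]
        exact Nat.zero_le _
      · obtain ⟨⟨x, hxM⟩, hxk⟩ := h3
        obtain ⟨Φ, hΦ, hΦx⟩ := hcon x hxM
        have hxb : x ∉ bad := fun hh => (Finset.disjoint_left.1 (h1 M hM).2 hh) hxM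
        have h4 : Nat.card {x : M // ftype L (x : HeightOneSpectrum (𝓞 F)) = k} ≤ M.card := by
          have e1 : Nat.card M = M.card := by rw [Nat.card_eq_fintype_card, Fintype.card_coe]
          rw [← e1]
          exact Nat.card_le_card_of_injective (fun y => y.1) Subtype.val_injective
        have h5 : (T'.filter fun t => HasFrob Φ t).card ≤
            Nat.card {x : T' // ftype L (x : HeightOneSpectrum (𝓞 F)) = k} := by
          have e1 : Nat.card (T'.filter fun t => HasFrob Φ t) =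
              (T'.filter fun t => HasFrob Φ t).card := by
            rw [Nat.card_eq_fintype_card, Fintype.card_coe]
          rw [← e1]
          refine Nat.card_le_card_of_injective (fun y => ⟨⟨y.1, (Finset.mem_filter.1 y.2).1⟩, ?_⟩)
            ?_
          · rw [← hxk]
            exact type_eq hun hxb (hb' _ (Finset.mem_filter.1 y.2).1) hΦx
              (Finset.mem_filter.1 y.2).2
          · intro y z hyz
            have h6 := congrArg (fun w => ((w.1 : T') : HeightOneSpectrum (𝓞 F))) hyz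
            exact Subtype.ext h6
        have h7 : m ≤ (T'.filter fun t => HasFrob Φ t).card := hΦ
        exact le_trans h4 (le_trans (le_trans hMc.le h7) h5)
    have hne : T'.Nonempty := by
      obtain ⟨e, -⟩ := hemb
      obtain ⟨x, hx⟩ := (h1 M hM).1
      exact ⟨e ⟨x, hx⟩, (e ⟨x, hx⟩).2⟩
    exact hR' hne ((h2 T' hne hdis').2 ⟨M, hM, hemb⟩)
  · have h3 : T.filter (QQ bad 𝒞ᶜ) ⊆ (Finset.univ.filter fun Φ : L ≃ₐ[F] L => Φ ∉ 𝒞).biUnion
        (fun Φ => T'.filter fun t => HasFrob Φ t) := by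
      intro t ht
      rw [Finset.mem_filter] at ht
      obtain ⟨htT, htb, Φ, hΦ, hΦt⟩ := ht
      rw [Finset.mem_biUnion]
      refine ⟨Φ, Finset.mem_filter.2 ⟨Finset.mem_univ _, hΦ⟩, ?_⟩
      rw [Finset.mem_filter]
      exact ⟨Finset.mem_filter.2 ⟨htT, htb⟩, hΦt⟩
    refine (Finset.card_le_card h3).trans ?_
    refine (Finset.card_biUnion_le_card_mul _ _ m ?_).trans ?_
    · intro Φ hΦ
      have h4 : ¬ m ≤ (T'.filter fun t => HasFrob Φ t).card := (Finset.mem_filter.1 hΦ).2
      omega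
    · refine Nat.mul_le_mul_right m ?_
      rw [Nat.card_eq_fintype_card]
      exact (Finset.card_filter_le _ _)

end

end Pool.Agent.U360.TQ
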