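import Pool.Agent.U360.TQ.Ar4

/-!
# The number of the sets `T` for which Rubin's conjecture fails: the theorem
-/

set_option autoImplicit false
set_option linter.unusedSectionVars false

open NumberField IsDedekindDomain Filter Topology

noncomputable section

open scoped Classical

namespace Pool.Agent.U360.TQ

open Pool.Agent.K3h30.RS Pool.Agent.K3h43.RS Pool.Agent.K3h8.RS Pool.Agent.W401.Cheb
open Pool.Agent.U360.RS

variable {F H G : Type} [Field F] [NumberField F] [Field H] [NumberField H] [Algebra F H]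
  [CommGroup G] [Finite G] [MulSemiringAction G H]

theorem exc_eq (D : RubinData F H G) (X : ℕ) :
    exc D X = (((PF F).TT X).filter fun T => D.Allowed T ∧ ¬ D.Rubin T).card := by
  have e1 : exc D X = Set.ncard {T : Finset (HeightOneSpectrum (𝓞 F)) | D.Allowed T ∧
      ¬ D.Rubin T ∧ ∏ v ∈ T, Ideal.absNorm v.asIdeal ≤ X} := Nat.card_coe_set_eq _
  rw [e1, ← Set.ncard_coe_finset]
  congr 1
  ext T
  rw [Finset.mem_coe, Finset.mem_filter, PS.mem_TT]
  constructor
  · rintro ⟨h1, h2, h3⟩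
    exact ⟨h3, h1, h2⟩
  · rintro ⟨h3, h1, h2⟩
    exact ⟨h1, h2, h3⟩

theorem tendsto_log : Tendsto (fun X : ℕ => Real.log X) atTop atTop :=
  Real.tendsto_log_atTop.comp tendsto_natCast_atTop_atTop

theorem core [hG : IsGaloisGroup G F H] (D : RubinData F H G) :
    ∃ β : ℚ, 0 ≤ β ∧ β ≤ 1 ∧ (0 < β ↔ ∃ T, Disjoint D.S T ∧ D.Stark T) ∧
      (∀ ε : ℝ, 0 < ε → ∀ᶠ X : ℕ in atTop,
        (exc D X : ℝ) ≤ X * (Real.log X) ^ (-(β : ℝ) + ε)) ∧
      ((∀ T, D.Allowed T → D.Rubin T) ∨ ∀ ε : ℝ, 0 < ε → ∀ᶠ X : ℕ in atTop,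
        X * (Real.log X) ^ (-(β : ℝ) - ε) ≤ (exc D X : ℝ)) := by
  obtain ⟨L, i1, i2, i3, bad₁, hgal, hbad₁, hL₁⟩ := frobenian D
  obtain ⟨bad₂, hun₂⟩ := frob_unique (F := F) (L := L)
  obtain ⟨bad, hbadeq⟩ : ∃ b, b = bad₁ ∪ bad₂ := ⟨_, rfl⟩
  have hsub1 : bad₁ ⊆ bad := by rw [hbadeq]; exact Finset.subset_union_left
  have hsub2 : bad₂ ⊆ bad := by rw [hbadeq]; exact Finset.subset_union_right
  have hbad : ∀ v, v ∉ bad → D.Allowed {v} := fun v hv => hbad₁ v fun h => hv (hsub1 h)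
  have hun : ∀ v, v ∉ bad → ∀ Φ Φ' : L ≃ₐ[F] L, HasFrob Φ v → HasFrob Φ' v →
      ∃ Ψ : L ≃ₐ[F] L, Φ' = Ψ * Φ * Ψ⁻¹ := fun v hv => hun₂ v fun h => hv (hsub2 h)
  have hL : ∀ T T' : Finset (HeightOneSpectrum (𝓞 F)), Disjoint bad T → Disjoint bad T' →
        SameFrob L T T' → (D.Rubin T ↔ D.Rubin T') := fun T T' h1 h2 =>
    hL₁ T T' (Finset.disjoint_of_subset_left hsub1 h1) (Finset.disjoint_of_subset_left hsub1 h2)
  obtain ⟨𝓜, hM1, hM2⟩ := finite_list_of D L bad hbad hL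
  obtain ⟨n, hn⟩ : ∃ n, n = Nat.card (L ≃ₐ[F] L) := ⟨_, rfl⟩
  have hn0 : 0 < n := by rw [hn]; exact Nat.card_pos
  obtain ⟨𝓑, h𝓑⟩ : ∃ 𝓑 : Finset (Set (L ≃ₐ[F] L)), ∀ 𝒞, 𝒞 ∈ 𝓑 ↔ Cl 𝒞 ∧ Av 𝓜 𝒞 :=
    ⟨Finset.univ.filter fun 𝒞 => Cl 𝒞 ∧ Av 𝓜 𝒞, fun 𝒞 => by simp⟩
  have hempty : (∅ : Set (L ≃ₐ[F] L)) ∈ 𝓑 := by
    rw [h𝓑]
    refine ⟨fun Φ hΦ => absurd hΦ (Set.notMem_empty _), fun M hM => ?_⟩
    obtain ⟨x, hx⟩ := (hM1 M hM).1
    exact ⟨x, hx, fun Φ hΦ => absurd hΦ (Set.notMem_empty _)⟩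
  obtain ⟨𝒞₀, h𝒞₀, hmax⟩ := Finset.exists_max_image 𝓑 Set.ncard ⟨_, hempty⟩
  obtain ⟨hcl₀, hav₀⟩ := (h𝓑 _).1 h𝒞₀
  have hcompl : ∀ 𝒞 : Set (L ≃ₐ[F] L), 𝒞.ncard + 𝒞ᶜ.ncard = n := fun 𝒞 => by
    rw [hn]; exact Set.ncard_add_ncard_compl 𝒞
  have hβ1 : ((𝒞₀ᶜ.ncard : ℝ) / n) = 1 - (𝒞₀.ncard : ℝ) / n := by
    have h1 := hcompl 𝒞₀
    have h2 : (𝒞₀.ncard : ℝ) + 𝒞₀ᶜ.ncard = n := by exact_mod_cast h1
    have h3 : (n : ℝ) ≠ 0 := by positivity
    field_simp
    linarith
  have hcast : (((𝒞₀ᶜ.ncard : ℚ) / n : ℚ) : ℝ) = (𝒞₀ᶜ.ncard : ℝ) / n := by push_cast; rfl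
  refine ⟨(𝒞₀ᶜ.ncard : ℚ) / n, by positivity, ?_, ?_, ?_, ?_⟩
  · rw [div_le_one (by exact_mod_cast hn0)]
    have h1 := hcompl 𝒞₀
    exact_mod_cast (show 𝒞₀ᶜ.ncard ≤ n by omega)
  · constructor
    · intro h
      have h1 : 0 < 𝒞₀ᶜ.ncard := by
        by_contra h2
        have h3 : 𝒞₀ᶜ.ncard = 0 := by omega
        rw [h3, Nat.cast_zero, zero_div] at h
        exact lt_irrefl _ h
      have h2 : 𝓜.Nonempty := by
        by_contra h3
        rw [Finset.not_nonempty_iff_eq_empty] at h3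
        have h4 : (Set.univ : Set (L ≃ₐ[F] L)) ∈ 𝓑 := by
          rw [h𝓑]
          refine ⟨fun _ _ _ => Set.mem_univ _, fun M hM => ?_⟩
          rw [h3] at hM
          exact absurd hM (Finset.notMem_empty _)
        have h5 := hmax _ h4
        rw [Set.ncard_univ, ← hn] at h5
        have h6 := hcompl 𝒞₀
        omega
      obtain ⟨M, hM⟩ := h2
      obtain ⟨u, e, -, s⟩ := (hM2 M (hM1 M hM).1 (hM1 M hM).2).2
        ⟨M, hM, EmbFrob.of_subset (Finset.Subset.refl M)⟩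
      refine ⟨M, ?_, u, e, s⟩
      rw [Finset.disjoint_left]
      intro x hx hxM
      have h3 := (hbad x fun hh => (Finset.disjoint_left.1 (hM1 M hM).2 hh) hxM).1
      exact (Finset.disjoint_singleton_right.1 h3) hx
    · intro h
      obtain ⟨v, hv, hR⟩ := exists_good_prime D h bad
      obtain ⟨M, hM, -⟩ := (hM2 {v} (Finset.singleton_nonempty v)
        (Finset.disjoint_singleton_right.2 hv)).1 hR
      have h1 : 0 < 𝒞₀ᶜ.ncard := by
        by_contra h2
        have h3 : 𝒞₀ᶜ.ncard = 0 := by omega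
        rw [Set.ncard_eq_zero (Set.toFinite _)] at h3
        obtain ⟨x, hx, hx'⟩ := hav₀ M hM
        obtain ⟨Φ, hΦ⟩ := exists_hasFrob F L x
        refine hx' Φ ?_ hΦ
        rw [Set.compl_empty_iff] at h3
        rw [h3]
        exact Set.mem_univ _
      positivity
  · intro ε hε
    rw [hcast]
    set K := n * (1 + 𝓜.sup Finset.card) with hK
    have hup : ∀ 𝒞 ∈ 𝓑, ∀ᶠ X : ℕ in atTop,
        ((((PF F).TT X).filter fun T => (T.filter (QQ bad 𝒞ᶜ)).card ≤ K).card : ℝ) ≤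
          X * (Real.log X) ^ (-((𝒞ᶜ.ncard : ℝ) / n) + ε / 2) := by
      intro 𝒞 h𝒞
      have h1 := QQ_dens hun (Cl.compl ((h𝓑 _).1 h𝒞).1)
      rw [← hn] at h1
      exact PS.upper (PF F) hasDens_one h1 K (half_pos hε)
    have hup' := (Filter.eventually_all_finset 𝓑).2 hup
    have hbig : ∀ᶠ X : ℕ in atTop, (𝓑.card : ℝ) ≤ (Real.log X) ^ (ε / 2) :=
      ((tendsto_rpow_atTop (half_pos hε)).comp tendsto_log).eventually_ge_atTop _
    filter_upwards [hup', hbig, tendsto_log.eventually_ge_atTop 1] with X h1 h2 h3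
    have hl0 : 0 < Real.log X := by linarith
    have h4 : (exc D X : ℝ) ≤ ∑ 𝒞 ∈ 𝓑,
        ((((PF F).TT X).filter fun T => (T.filter (QQ bad 𝒞ᶜ)).card ≤ K).card : ℝ) := by
      rw [exc_eq]
      have h5 : (((PF F).TT X).filter fun T => D.Allowed T ∧ ¬ D.Rubin T) ⊆
          𝓑.biUnion fun 𝒞 =>
            (((PF F).TT X).filter fun T => (T.filter (QQ bad 𝒞ᶜ)).card ≤ K) := by
        intro T hT
        rw [Finset.mem_filter] at hT
        obtain ⟨𝒞, g1, g2, g3⟩ := fail_types D hbad hun hM1 hM2 hT.2.1 hT.2.2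
        rw [Finset.mem_biUnion]
        refine ⟨𝒞, (h𝓑 _).2 ⟨g1, g2⟩, ?_⟩
        rw [Finset.mem_filter, hK, hn]
        exact ⟨hT.1, g3⟩
      have h6 := (Finset.card_le_card h5).trans Finset.card_biUnion_le
      exact_mod_cast h6
    refine h4.trans ?_
    have h5 : ∀ 𝒞 ∈ 𝓑,
        ((((PF F).TT X).filter fun T => (T.filter (QQ bad 𝒞ᶜ)).card ≤ K).card : ℝ) ≤
          X * (Real.log X) ^ (-((𝒞₀ᶜ.ncard : ℝ) / n) + ε / 2) := by
      intro 𝒞 h𝒞
      refine (h1 𝒞 h𝒞).trans ?_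
      refine mul_le_mul_of_nonneg_left ?_ (Nat.cast_nonneg _)
      refine Real.rpow_le_rpow_of_exponent_le h3 ?_
      have h6 := hmax 𝒞 h𝒞
      have h7 := hcompl 𝒞
      have h8 := hcompl 𝒞₀
      have h9 : (𝒞₀ᶜ.ncard : ℝ) / n ≤ (𝒞ᶜ.ncard : ℝ) / n := by
        refine div_le_div_of_nonneg_right ?_ (Nat.cast_nonneg _)
        exact_mod_cast (show 𝒞₀ᶜ.ncard ≤ 𝒞ᶜ.ncard by omega)
      linarith
    refine (Finset.sum_le_card_nsmul _ _ _ h5).trans ?_
    rw [nsmul_eq_mul]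
    calc (𝓑.card : ℝ) * (X * (Real.log X) ^ (-((𝒞₀ᶜ.ncard : ℝ) / n) + ε / 2))
        ≤ (Real.log X) ^ (ε / 2) * (X * (Real.log X) ^ (-((𝒞₀ᶜ.ncard : ℝ) / n) + ε / 2)) :=
          mul_le_mul_of_nonneg_right h2 (by positivity)
      _ = X * (Real.log X) ^ (-((𝒞₀ᶜ.ncard : ℝ) / n) + ε) := by
          rw [mul_left_comm, ← Real.rpow_add hl0]
          congr 2
          ring
  · rcases dich D with hall | hpos
    · exact Or.inl hall
    · right
      intro ε hε
      rw [hcast]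
      rcases Nat.eq_zero_or_pos 𝒞₀.ncard with h0 | h0
      · -- the exponent is one
        have h1 : 𝒞₀ᶜ.ncard = n := by have := hcompl 𝒞₀; omega
        rw [h1, div_self (by positivity)]
        obtain ⟨c, hc, hX⟩ := hpos
        have hpi : Tendsto (fun N : ℕ => (Nat.primeCounting N : ℝ) * Real.log N / N) atTop
            (𝓝 1) := by
          have := Pool.Agent.Helper923.PNT.pi_tendsto.comp (tendsto_natCast_atTop_atTop (R := ℝ))
          refine this.congr fun N => ?_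
          simp only [Function.comp, Nat.floor_natCast]
        have hpi' := hpi.eventually (lt_mem_nhds (show (1 / 2 : ℝ) < 1 by norm_num))
        have hbig : ∀ᶠ X : ℕ in atTop, 2 / c ≤ (Real.log X) ^ ε :=
          ((tendsto_rpow_atTop hε).comp tendsto_log).eventually_ge_atTop _
        filter_upwards [hX, hpi', hbig, tendsto_log.eventually_ge_atTop 1,
          eventually_ge_atTop 1] with X g1 g2 g3 g4 g5
        have hX0 : (0 : ℝ) < X := by exact_mod_cast g5
        have hl0 : 0 < Real.log X := by linarith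
        have h2 : (Nat.card {v : HeightOneSpectrum (𝓞 F) // (D.Allowed {v} ∧ ¬ D.Rubin {v}) ∧
            Ideal.absNorm v.asIdeal ≤ X} : ℝ) ≤ exc D X := by
          have hfin : Finite {T : Finset (HeightOneSpectrum (𝓞 F)) // D.Allowed T ∧
              ¬ D.Rubin T ∧ ∏ v ∈ T, Ideal.absNorm v.asIdeal ≤ X} := by
            refine Set.Finite.to_subtype (((PF F).TT X).finite_toSet.subset ?_)
            intro T hT
            exact Finset.mem_coe.2 ((PF F).mem_TT.2 hT.2.2)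
          have h3 : Nat.card {v : HeightOneSpectrum (𝓞 F) // (D.Allowed {v} ∧ ¬ D.Rubin {v}) ∧
              Ideal.absNorm v.asIdeal ≤ X} ≤ exc D X := by
            refine Nat.card_le_card_of_injective (fun v => ⟨{v.1}, v.2.1.1, v.2.1.2, ?_⟩) ?_
            · rw [Finset.prod_singleton]
              exact v.2.2
            · intro v w hvw
              have h4 := congrArg Subtype.val hvw
              exact Subtype.ext (Finset.singleton_injective h4)
          exact_mod_cast h3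
        refine le_trans ?_ (g1.trans h2)
        rw [lt_div_iff₀ hX0] at g2
        have h3 : c * (Nat.primeCounting X : ℝ) * Real.log X ≥ c / 2 * X := by
          have := mul_lt_mul_of_pos_left g2 hc
          linarith
        have h4 : (Real.log X) ^ (-1 - ε : ℝ) * (Real.log X) * (Real.log X) ^ ε = 1 := by
          rw [← Real.rpow_add_one hl0.ne', ← Real.rpow_add hl0]
          have : (-1 - ε + 1 + ε : ℝ) = 0 := by ring
          rw [this, Real.rpow_zero]
        have h5 : (Real.log X) ^ (-1 - ε : ℝ) * Real.log X ≤ c / 2 := by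
          have h6 : 0 < (Real.log X) ^ (-1 - ε : ℝ) * Real.log X := by positivity
          have h7 : (Real.log X) ^ (-1 - ε : ℝ) * Real.log X * (2 / c) ≤ 1 := by
            calc (Real.log X) ^ (-1 - ε : ℝ) * Real.log X * (2 / c)
                ≤ (Real.log X) ^ (-1 - ε : ℝ) * Real.log X * (Real.log X) ^ ε :=
                  mul_le_mul_of_nonneg_left g3 h6.le
              _ = 1 := h4
          have h8 : (Real.log X) ^ (-1 - ε : ℝ) * Real.log X * (2 / c) * (c / 2) ≤ 1 * (c / 2) :=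
            mul_le_mul_of_nonneg_right h7 (by positivity)
          have h9 : (2 / c) * (c / 2) = 1 := by field_simp
          rw [mul_assoc, h9, mul_one, one_mul] at h8
          exact h8
        have h6 : X * (Real.log X) ^ (-1 - ε : ℝ) * Real.log X ≤
            c * (Nat.primeCounting X : ℝ) * Real.log X := by
          calc X * (Real.log X) ^ (-1 - ε : ℝ) * Real.log X
              = X * ((Real.log X) ^ (-1 - ε : ℝ) * Real.log X) := by ring
            _ ≤ X * (c / 2) := mul_le_mul_of_nonneg_left h5 hX0.le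
            _ = c / 2 * X := by ring
            _ ≤ _ := h3
        exact le_of_mul_le_mul_right h6 hl0
      · have h1 := QQ_dens hun hcl₀
        rw [← hn] at h1
        have h2 := PS.lower (PF F) hasDens_one h1 (by positivity) hε
        filter_upwards [h2] with X h2
        have h3 : (-((𝒞₀ᶜ.ncard : ℝ) / n) - ε) = (𝒞₀.ncard : ℝ) / n - 1 - ε := by
          rw [hβ1]; ring
        rw [h3]
        refine h2.trans ?_
        rw [exc_eq]
        have h4 : (((PF F).TT X).filter fun T => T.Nonempty ∧ ∀ i ∈ T, QQ bad 𝒞₀ i) ⊆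
            (((PF F).TT X).filter fun T => D.Allowed T ∧ ¬ D.Rubin T) := by
          intro T hT
          rw [Finset.mem_filter] at hT ⊢
          obtain ⟨hT, hne, hall⟩ := hT
          have hTb : Disjoint bad T := by
            rw [Finset.disjoint_left]
            exact fun x hx hxT => (hall x hxT).1 hx
          refine ⟨hT, allowed_of hne fun v hv => hbad v (hall v hv).1, fun hR => ?_⟩
          obtain ⟨M, hM, e, he⟩ := (hM2 T hne hTb).1 hR
          obtain ⟨x, hx, hx'⟩ := hav₀ M hM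
          obtain ⟨Φ, g1, g2⟩ := he ⟨x, hx⟩
          obtain ⟨hb, Φ', g3, g4⟩ := hall _ (e ⟨x, hx⟩).2
          obtain ⟨Ψ, rfl⟩ := hun _ hb Φ' Φ g4 g2
          exact hx' _ (hcl₀ _ g3 _) g1
        exact_mod_cast Finset.card_le_card h4

/-- **The logarithmic exponent.** -/
theorem log_exponent [hG : IsGaloisGroup G F H] (D : RubinData F H G) :
    (∀ T, D.Allowed T → D.Rubin T) ∨ ∃ β : ℚ, 0 ≤ β ∧ β ≤ 1 ∧
      (0 < β ↔ ∃ T, Disjoint D.S T ∧ D.Stark T) ∧
      Tendsto (fun X : ℕ => Real.log ((exc D X : ℝ) / X) / Real.log (Real.log X)) atTop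
        (𝓝 (-(β : ℝ))) := by
  obtain ⟨β, h0, h1, h2, h3, h4⟩ := core D
  rcases h4 with h4 | h4
  · exact Or.inl h4
  · refine Or.inr ⟨β, h0, h1, h2, ?_⟩
    rw [Metric.tendsto_nhds]
    intro ε hε
    filter_upwards [h3 (ε / 2) (half_pos hε), h4 (ε / 2) (half_pos hε), eventually_ge_atTop 1,
      (Real.tendsto_log_atTop.comp tendsto_log).eventually_gt_atTop 0,
      tendsto_log.eventually_gt_atTop 0] with X g1 g2 g3 g4 g5
    have hX0 : (0 : ℝ) < X := by exact_mod_cast g3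
    have g4' : 0 < Real.log (Real.log X) := g4
    have e1 : (X : ℝ) * (Real.log X) ^ (-(β : ℝ) - ε / 2) ≤ exc D X := g2
    have p1 : 0 < (Real.log X) ^ (-(β : ℝ) - ε / 2) := Real.rpow_pos_of_pos g5 _
    have p2 : (Real.log X) ^ (-(β : ℝ) - ε / 2) ≤ (exc D X : ℝ) / X := by
      rw [le_div_iff₀ hX0, mul_comm]; exact g2
    have p3 : (exc D X : ℝ) / X ≤ (Real.log X) ^ (-(β : ℝ) + ε / 2) := by
      rw [div_le_iff₀ hX0, mul_comm]; exact g1
    have p4 : 0 < (exc D X : ℝ) / X := lt_of_lt_of_le p1 p2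
    have q1 := Real.log_le_log p1 p2
    have q2 := Real.log_le_log p4 p3
    rw [Real.log_rpow g5] at q1 q2
    have r1 : -(β : ℝ) - ε / 2 ≤ Real.log ((exc D X : ℝ) / X) / Real.log (Real.log X) := by
      rw [le_div_iff₀ g4']; exact q1
    have r2 : Real.log ((exc D X : ℝ) / X) / Real.log (Real.log X) ≤ -(β : ℝ) + ε / 2 := by
      rw [div_le_iff₀ g4']; exact q2
    rw [Real.dist_eq, abs_lt]
    constructor <;> linarith

end Pool.Agent.U360.TQ
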